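import Pool.Agent.Work.MP_10f4af_ag.MC.I
import Pool.Agent.Work.MP_10f4af_ag.FA.E1

-- merged part: Pool.Agent.Work.MP_10f4af_ag.MC.B
section
/-!
# Very general hypersurfaces of any dimension
-/

open MvPolynomial

namespace Pool.Agent.Work.MP_10f4af_ag

open MP_ffcd14_ag (Amb)

universe u v w

variable {k : Type u} [Field k] [IsAlgClosed k] {P : Amb} {X Y : SV k P}
  {f : MvPolynomial P.V k} {K : Type v} [Field K] [CharZero K] {W : Weil.{u, v, w} k K}

theorem inj_zero (X : SV k P) : Set.InjOn (W.cl X) (CH X 0) := by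
  refine (K3_inj W 0).1 fun z hz h0 => ?_
  obtain ⟨q, rfl⟩ := CR.gr_zero hz
  rw [W.clR_smul, map_one, smul_eq_zero, Rat.cast_eq_zero] at h0
  rw [h0.resolve_right Weil.one_ne, zero_smul]

variable {a : P.ι →₀ ℕ} (hP : Nat.card P.ι = 1) (hY : Y.pts = Set.univ)
  (h : Sec Y X f a) (hf : AlgebraicIndependent (⊥ : Subfield k) fun m : Mon a => coeff m.1 f)
  (he : ∀ i, 3 ≤ a i) (hW : W.Lef)

include hP hY h hf he hW

theorem hyp_ker (i m : ℕ) : Indep W X (Ker X i m) :=
  ker_all (M := Mod.one X) (H2_al hW (vg_of' hY h hf)) (fun _ hp hpp h0 =>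
    IsIdempotentElem.eq_zero_of_isNilpotent hpp (nil_all hP hY h hf he (hom_NJ hp h0))) i m

theorem hyp_fil (i : ℕ) (m : ℤ) : Indep W X (Fil X i m) ↔
    (1 < i → m ≤ 0 → 2 * i < X.dim + m → Set.InjOn (W.cl X) (CH X i)) := by
  obtain ⟨h1, ⟨i₀⟩⟩ := Nat.card_eq_one_iff_unique.1 hP
  have : Unique P.ι := uniqueOfSubsingleton i₀
  have hv := vg_of' hY h hf
  have e := fil_iff (M := Mod.one X) (H2_al hW hv) (fun _ hp hpp h0 =>
    IsIdempotentElem.eq_zero_of_isNilpotent hpp (nil_all hP hY h hf he (hom_NJ hp h0))) i m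
  refine e.trans ⟨fun H _ => H, fun H h2 h3 => ?_⟩
  obtain rfl | rfl | hi : i = 0 ∨ i = 1 ∨ 1 < i := by omega
  · exact inj_zero X
  · refine inj_one (X := X) hW hv (fun e => ?_) (by
      change 2 * ((1 : ℕ) : ℤ) < X.dim + m at h3
      omega)
    have e1 := univ_dim e
    have e2 := univ_dim hY
    have e3 := h.dim
    omega
  · exact H hi h2 h3

end Pool.Agent.Work.MP_10f4af_ag
end

-- merged part: Pool.Agent.Work.MP_10f4af_ag.MC.B2
section
/-!
# Very general hypersurfaces, every set of degrees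
-/

open MvPolynomial

namespace Pool.Agent.Work.MP_10f4af_ag

open MP_ffcd14_ag (Amb)

universe u v w

variable {k : Type u} [Field k] [IsAlgClosed k] {P : Amb} {X Y : SV k P}
  {f : MvPolynomial P.V k} {K : Type v} [Field K] [CharZero K] {W : Weil.{u, v, w} k K}
  {a : P.ι →₀ ℕ}

theorem hyp_img (hP : Nat.card P.ι = 1) (hY : Y.pts = Set.univ)
    (h : Sec Y X f a) (hf : AlgebraicIndependent (⊥ : Subfield k) fun m : Mon a => coeff m.1 f)
    (he : ∀ i, 3 ≤ a i) (hW : W.Lef) (hd : 1 < X.dim) (i : ℕ) (t : Finset ℕ) :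
    Indep W X (fun π => act X (∑ j : Fin (2 * X.dim + 1) with j.val ∈ t, π j) '' CH X i) ↔
      (1 < i → X.dim ∉ t → 2 * i ∈ t → Set.InjOn (W.cl X) (CH X i)) := by
  obtain ⟨h1, ⟨i₀⟩⟩ := Nat.card_eq_one_iff_unique.1 hP
  have : Unique P.ι := uniqueOfSubsingleton i₀
  have hv := vg_of' hY h hf
  have e := img_one (W := W) (X := X) (H2_al hW hv) (fun _ hp hpp h0 =>
    IsIdempotentElem.eq_zero_of_isNilpotent hpp (nil_all hP hY h hf he (hom_NJ hp h0))) i t
  refine e.trans ⟨fun H hi => H (by omega), fun H hi h2 h3 => ?_⟩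
  obtain rfl | hi : i = 1 ∨ 1 < i := by omega
  · have h4 : X.dim ≠ 2 * 1 := fun e => h2 (e ▸ h3)
    refine inj_one (X := X) hW hv (fun e => ?_) (by omega)
    have e1 := univ_dim e
    have e2 := univ_dim hY
    have e3 := h.dim
    omega
  · exact H hi h2 h3

end Pool.Agent.Work.MP_10f4af_ag
end
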