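import Pool.Agent.Work.MP_10f4af_ag.MC.M

/-!
# Very general complete intersections in `Y` are very general members of a linear system
-/

open MvPolynomial Function

namespace Pool.Agent.Work.MP_10f4af_ag

open MP_ffcd14_ag hiding len vl cyc pl Weil idl_hmg mem_idl idl_prime idl_le_iff lin

universe u v w

variable {k : Type u} [Field k] {P : Amb}

section

variable {r : ℕ} {Z : ℕ → SV k P} {f : ℕ → MvPolynomial P.V k} {a : ℕ → P.ι →₀ ℕ}
  (h : ∀ j < r, Sec (Z j) (Z (j + 1)) (f j) (a j))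
include h

theorem chain_ptsY (x : P.Pt k) :
    x ∈ (Z r).pts ↔ x ∈ (Z 0).pts ∧ ∀ j : Fin r, ev x (f j) = 0 := by
  induction r with
  | zero => simp
  | succ n ih =>
    rw [(h n n.lt_succ_self).pts, Set.mem_sep_iff, ih fun j hj => h j (hj.trans n.lt_succ_self),
      Fin.forall_fin_succ', and_assoc]
    rfl

theorem chain_dimY : (Z r).dim + r = (Z 0).dim := by
  induction r with
  | zero => rfl
  | succ r ih =>
    have h1 := (h r r.lt_succ_self).dim
    have h2 := ih fun j hj => h j (hj.trans r.lt_succ_self)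
    omega

theorem alg_low' [IsAlgClosed k] {K : Type v} [Field K] {W : Weil.{u, v, w} k K} (hW : W.Lef)
    {i : ℕ} (h0 : ∀ y, W.dg (Z 0) i y → y ∈ W.Alg (Z 0)) (hi : i < (Z r).dim)
    {x : W.H (Z r)} (hx : x ∈ W.gr (Z r) i) : x ∈ W.Alg (Z r) := by
  induction r with
  | zero => exact h0 x (Weil.mem_gr.1 hx)
  | succ r ih =>
    have h1 := h r r.lt_succ_self
    obtain ⟨y, hy, rfl⟩ := hW.weak _ _ _ _ h1 i hi x (Weil.mem_gr.1 hx)
    have h2 := h1.dim
    exact res_alg W (h1.pts ▸ Set.sep_subset _ _)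
      (ih (fun j hj => h j (hj.trans r.lt_succ_self)) (by omega) (Weil.mem_gr.2 hy))

end

variable [IsAlgClosed k] {K : Type v} [Field K] {W : Weil.{u, v, w} k K} {X Y : SV k P}

theorem alg_of_low (hW : W.Lef) (h : ∀ i < X.dim, ∀ x ∈ W.gr X i, x ∈ W.Alg X) {i : ℕ}
    (hi : i ≠ X.dim) {x : W.H X} (hx : x ∈ W.gr X i) : x ∈ W.Alg X := by
  rcases hi.lt_or_gt with hi | hi
  · exact h i hi x hx
  by_cases h1 : 2 * X.dim < i
  · exact Weil.gr_gt h1 hx ▸ zero_mem _
  obtain ⟨g, hg, h2⟩ := exists_form_deg (Set.finite_singleton X.tp)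
    (Finsupp.equivFunOnFinite.symm fun _ => 1)
  have e : 2 * X.dim - i + 2 * (i - X.dim) = i := by omega
  obtain ⟨y, hy, rfl⟩ := hW.hard X g _ hg (fun _ => Nat.one_pos)
    (fun e => h2 _ rfl ((mem_idl hg).1 e)) (2 * X.dim - i) (i - X.dim) (by omega) x
    (Weil.mem_gr.1 (by rwa [e]))
  have h3 : W.hyp X g ∈ W.Alg X := by
    refine Submodule.subset_span ⟨1, _, (mem_CH _).2 ⟨_, ?_, rfl⟩, rfl⟩
    refine (gys_single hg X.tp).symm ▸ Sp_mono (fun T hT => ⟨hT.1, ?_⟩)
      (cut_mem (fs := [g]) (fun f hf => List.mem_singleton.1 hf ▸ ⟨_, hg⟩) X.tp)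
    exact hT.2.1.trans X.sdim_tp
  refine alg_mul W ?_ (h _ (by omega) y (Weil.mem_gr.2 hy))
  generalize i - X.dim = j
  induction j with
  | zero => exact (pow_zero _).trans (map_one (W.clR X)).symm ▸ clR_alg W 1
  | succ j ih => exact pow_succ (W.hyp X g) j ▸ alg_mul W ih h3

theorem vgin_of_ci {F : Subfield k} {E : Set (MvPolynomial P.V F)} {r : ℕ} {Z : ℕ → SV k P}
    {f : ℕ → MvPolynomial P.V k} {a : ℕ → P.ι →₀ ℕ} (h1 : ∀ e ∈ E, ∃ b, IsForm e b)
    (h2 : (Z 0).pts = {x | ∀ e ∈ E, evF x e = 0})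
    (h3 : ∀ j < r, Sec (Z j) (Z (j + 1)) (f j) (a j))
    (h4 : AlgebraicIndependent F fun p : Σ j : Fin r, Mon (a j) => coeff p.2.1 (f p.1)) :
    VGin (Z 0) (Z r) := by
  let _ : ∀ j, Fintype (Mon (a j)) := fun j => Fintype.ofFinite _
  let e := (Fintype.equivFin (Σ j : Fin r, Mon (a j))).symm
  let G : Fin r → (Σ j : Fin r, Mon (a j)) → MvPolynomial P.V F := fun j p =>
    if p.1 = j then monomial p.2.1 1 else 0
  have hm : ∀ x j p, evF x (G j p) = if p.1 = j then ev x (monomial p.2.1 1) else 0 := by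
    intro x j p
    simp only [G, evF]
    split_ifs
    · rw [map_monomial, map_one]
    · rw [map_zero, ev_eq, map_zero]
  refine ⟨F, E, r, _, fun j p => G j (e p), fun p => coeff (e p).2.1 (f (e p).1), h1, h2,
    fun j => ⟨a j, fun p => ?_⟩, h4.comp e e.injective, Set.ext fun x => ?_, chain_dimY h3,
    fun T hT hd => ?_⟩
  · simp only [G]
    split_ifs with h
    · rw [← h]
      exact mon_form (e p).2
    · exact isWeightedHomogeneous_zero F _ _
  · rw [chain_ptsY h3, Set.mem_sep_iff]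
    refine and_congr_right' (forall_congr' fun j => Eq.congr_left ?_)
    rw [e.sum_comp fun p => coeff p.2.1 (f p.1) * evF x (G j p)]
    simp only [hm]
    rw [Fintype.sum_sigma, Finset.sum_eq_single j]
    · refine (congrArg (ev x) (form_eq (h3 j j.2).form)).trans ?_
      simp only [ev_eq, map_sum, map_mul, eval_C, if_true]
    · intro i _ hi
      exact Finset.sum_eq_zero fun m _ => by rw [if_neg hi, mul_zero]
    · exact fun e => absurd (Finset.mem_univ _) e
  · have key : ∀ z ∈ T, fst z = snd z := fun z hz => by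
      by_contra hne
      refine (hT z hz).2.2 (Fintype.linearIndependent_iff.2 fun c hc j => ?_)
      have key := fun j : Fin r => sep_mon (h3 j j.2).pos hne (c := c (Sum.inl j))
        (c' := c (Sum.inr j)) fun m => by
          have e1 := congrFun hc (e.symm ⟨j, m⟩)
          simp only [Fintype.sum_sum_type, Finset.sum_apply, Pi.smul_apply,
            smul_eq_mul, Sum.elim_inl, Sum.elim_inr, Pi.zero_apply] at e1
          rw [e.apply_symm_apply] at e1
          simpa only [hm, mul_ite, mul_zero, Finset.sum_ite_eq, Finset.mem_univ, if_true] using e1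
      rcases j with j | j
      exacts [(key j).1, (key j).2]
    refine ⟨le_antisymm ?_ hd, Or.inl key⟩
    rw [height_eq, Nat.cast_le, ← sdim_dsub (Z r)]
    exact sdim_mono fun z hz => mem_dsub.2 ⟨(hT z hz).2.1, key z hz⟩

/-- The case of complete intersections, with hypotheses on the ambient variety. -/
theorem ci_main [CharZero K] (hW : W.Lef) {F : Subfield k} {E : Set (MvPolynomial P.V F)} {r : ℕ}
    {Z : ℕ → SV k P} {f : ℕ → MvPolynomial P.V k} {a : ℕ → P.ι →₀ ℕ}
    (h1 : ∀ e ∈ E, ∃ b, IsForm e b) (h2 : (Z 0).pts = {x | ∀ e ∈ E, evF x e = 0})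
    (h3 : ∀ j < r, Sec (Z j) (Z (j + 1)) (f j) (a j))
    (h4 : AlgebraicIndependent F fun p : Σ j : Fin r, Mon (a j) => coeff p.2.1 (f p.1))
    (hN : ∀ γ ∈ CH ((Z 0).prod (Z 0)) (Z 0).dim, (∀ y, W.act (Z 0) γ y = 0) →
      ∃ n, (comp (Z 0) γ)^[n] γ = 0)
    (hA : ∀ i < (Z r).dim, ∀ y, W.dg (Z 0) i y → y ∈ W.Alg (Z 0))
    (hr : ∃ x, ∀ y, x - W.res (Z 0) (Z r) y ∉ W.Alg (Z r)) (i : ℕ) (t : Finset ℕ) :
    Indep W (Z r) (fun π =>
      act (Z r) (∑ j : Fin (2 * (Z r).dim + 1) with j.val ∈ t, π j) '' CH (Z r) i) ↔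
      (0 < i → (Z r).dim ∉ t → 2 * i ∈ t → Set.InjOn (W.cl (Z r)) (CH (Z r) i)) :=
  (vgin_of_ci h1 h2 h3 h4).main hN (fun _ hj _ hx => alg_of_low hW
    (fun i hi _ hx => alg_low' h3 hW (hA i hi) hi hx) hj (Weil.mem_gr.2 hx)) hr i t

end Pool.Agent.Work.MP_10f4af_ag
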