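import Pool.Agent.Work.MP_10f4af_ag.VG.Defs

/-! # Very general members of linear systems on a given variety -/

open MvPolynomial TopologicalSpace

namespace Pool.Agent.Work.MP_10f4af_ag

open MP_ffcd14_ag (Amb ev IsForm)

universe u

variable {k : Type u} [Field k] {P : Amb}

/-- The value at `x` of a polynomial with coefficients in the subfield `F`. -/
noncomputable def evF {F : Subfield k} (x : P.Pt k) (e : MvPolynomial P.V F) : k :=
  ev x (map F.subtype e)

/-- `X` is a very general member of a linear system on `Y`.  The variety `Y` is the zero set of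
forms over a subfield `F`.  The variety `X` has codimension `r` and is cut out of `Y` by `r`
equations `∑ p, c p * g j p = 0`, where the `g j p` are forms over `F` whose degree depends only on
`j`, and the parameters `c p` are algebraically independent over `F`.  A subvariety of `X × X` of
dimension at least `dim X`, at all points of which the `2 r` linear conditions on the parameters
are dependent, has dimension `dim X` and is the diagonal or a product. -/
def VGin (Y X : SV k P) : Prop :=
  ∃ (F : Subfield k) (E : Set (MvPolynomial P.V F)) (r N : ℕ)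
    (g : Fin r → Fin N → MvPolynomial P.V F) (c : Fin N → k),
    (∀ e ∈ E, ∃ b, IsForm e b) ∧ Y.pts = {x | ∀ e ∈ E, evF x e = 0} ∧
    (∀ j, ∃ b, ∀ p, IsForm (g j p) b) ∧ AlgebraicIndependent F c ∧
    X.pts = {x ∈ Y.pts | ∀ j, ∑ p, c p * evF x (g j p) = 0} ∧ X.dim + r = Y.dim ∧
    ∀ T : IrreducibleCloseds ((P.sum P).Pt k),
      (∀ z ∈ T, fst z ∈ X.pts ∧ snd z ∈ X.pts ∧ ¬ LinearIndependent k
        (Sum.elim (fun j p => evF (fst z) (g j p)) fun j p => evF (snd z) (g j p))) →
      X.dim ≤ Order.height T → Order.height T = X.dim ∧ ((∀ z ∈ T, fst z = snd z) ∨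
        ∃ V V' : IrreducibleCloseds (P.Pt k), ∀ z, z ∈ T ↔ fst z ∈ V ∧ snd z ∈ V')

end Pool.Agent.Work.MP_10f4af_ag
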