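import Pool.Agent.Work.MP_10f4af_ag.VG.H2

-- merged part: Pool.Agent.Work.MP_10f4af_ag.MC.A
section
/-!
# The common kernels of the projectors, one codimension at a time

Let the cohomology be algebraic outside the middle degree `d`, and let there be no phantom
projector.  A projector `q c` of degree different from `d` kills the classes with trivial
cohomology class (`off_kill`).  So the common kernel on `CH ^ i` of the projectors of degree in `s`
does not depend on the decomposition, unless `s d` holds and `s (2 i)` does not; in that case it is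
independent if and only if the cycle class map is injective on `CH ^ i` (`IS_iff`).
-/

open Function Function.Embedding

namespace Pool.Agent.Work.MP_10f4af_ag

open MP_ffcd14_ag (Amb)

universe u v w

variable {k : Type u} [Field k] [IsAlgClosed k] {K : Type v} [Field K] [CharZero K] {P : Amb}
  {W : Weil.{u, v, w} k K} {X : SV k P} {T : Type} {M : Mod X T} {ι : Type} [Fintype ι]
  {q : ι → Cor M} {n : ι → ℕ}

theorem bgen {i : ℕ} {s : ℕ → Prop} (h : IS W M i s) (h0 : ¬ s (2 * i)) (hq : Fam W M q n) {a : ι}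
    (ha : s (n a)) {z : CR M.Z} (hz : z ∈ CR.gr M.Z i) : Cor.tau M (q a) z = 0 := by
  rcases lt_or_ge M.Z.dim i with hi | hi
  · rw [CR.gr_gt hi hz, map_zero]
  obtain ⟨v, hv, w, hw, hvw⟩ := W.exists_dgr_ne M (Nat.add_sub_cancel' hi)
  have hout : ∀ c, s (n c) → c ∉ Finset.univ.filter fun c => n c = 2 * i := by
    intro c hc
    simp only [Finset.mem_filter, Finset.mem_univ, true_and]
    exact fun e => h0 (e ▸ hc)
  have hfix := K2_fix hq (W.clR_gr hw)
  have hee := K2_idem hq.coi (Finset.univ.filter fun c => n c = 2 * i)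
  have hce := fun c hc => K2_out hq.coi (hout c hc)
  have he : (∑ c with n c = 2 * i, q c) ∈ Cor.R0 M := sum_mem fun c _ => hq.mem c
  generalize (∑ c with n c = 2 * i, q c) = e at hfix hee hce he
  have hx : Cor.xx M v z ∈ Cor.R0 M := Cor.xx_mem M hv hz (Nat.sub_add_cancel hi)
  have hρ : W.rho M (q a * Cor.xx M v z * e) = 0 := by
    ext y
    rw [K2_rho_mul, K2_rho_mul, W.rho_xx, map_smul,
      hq.kill a (W.clR_gr hz) (fun e => h0 (e ▸ ha)), smul_zero]
    rfl
  have hτ : Cor.tau M (q a * Cor.xx M v z * e) w =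
      M.dgr (v * Cor.tau M e w) • Cor.tau M (q a) z := by
    rw [K2_tau_mul, K2_tau_mul, Mod.tau_xx, map_smul]
  have hd : M.dgr (v * Cor.tau M e w) = M.dgr (v * w) := by
    apply Rat.cast_injective (α := K)
    rw [W.cast_dgr, W.cast_dgr, RingHom.map_mul, RingHom.map_mul, W.clR_tau, hfix]
  have hg : q a * Cor.xx M v z * e ∈ Cor.R0 M := mul_mem (mul_mem (hq.mem a) hx) he
  have hgg : (q a * Cor.xx M v z * e) * (q a * Cor.xx M v z * e) = 0 := by
    rw [show (q a * Cor.xx M v z * e) * (q a * Cor.xx M v z * e) =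
      q a * Cor.xx M v z * (e * q a) * Cor.xx M v z * e by simp only [mul_assoc],
      (hce a ha).2, mul_zero, zero_mul, zero_mul]
  have hag : q a * ((1 + q a * Cor.xx M v z * e) * e) = q a * Cor.xx M v z * e := by
    rw [add_mul, one_mul, mul_add, (hce a ha).1, zero_add, mul_assoc _ e, hee, ← mul_assoc,
      ← mul_assoc, (hq.coi.idem a).eq]
  generalize q a * Cor.xx M v z * e = g at hρ hτ hg hgg hag
  have h1 : Cor.tau M ((1 + g) * e) w ∈ KS M (fun c => (1 + g) * q c * (1 - g)) n i s := by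
    refine ⟨Cor.tau_gr M (mul_mem (add_mem (one_mem _) hg) he) hw, fun c hc => ?_⟩
    have e1 : (1 - g) * (1 + g) = 1 := by
      rw [sub_mul, one_mul, mul_add, mul_one, hgg, add_zero, add_sub_cancel_right]
    rw [← K2_tau_mul, show (1 + g) * q c * (1 - g) * ((1 + g) * e) =
      (1 + g) * (q c * (((1 - g) * (1 + g)) * e)) by simp only [mul_assoc], e1, one_mul,
      (hce c hc).1, mul_zero, map_zero]
    rfl
  have h2 := (h _ _ _ _ _ _ (hq.conj hg hgg hρ) hq h1).2 a ha
  rw [← K2_tau_mul, hag, hτ, hd] at h2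
  exact (smul_eq_zero.1 h2).resolve_left hvw

theorem DD_kill {δ : Cor M} (hδ : δ ∈ Cor.DD M) {z : CR M.Z} (h : W.clR M.Z z = 0) :
    Cor.tau M δ z = 0 := by
  induction hδ using Submodule.span_induction with
  | mem y hy =>
    obtain ⟨b, a, rfl⟩ := hy
    rw [Mod.tau_xx, H1_dgr h, zero_smul]
  | zero => rw [map_zero, LinearMap.zero_apply]
  | add y z _ _ hy hz => rw [map_add, LinearMap.add_apply, hy, hz, add_zero]
  | smul r y _ hy => rw [map_smul, LinearMap.smul_apply, hy, smul_zero]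

variable (al : ∀ i ≠ M.Z.dim, ∀ x ∈ W.gr M.Z i, x ∈ W.Alg M.Z)
  (hp : ∀ p ∈ Cor.R0 M, p * p = p → W.rho M p = 0 → p = 0)
include al hp

theorem off_DD (hq : Fam W M q n) {c : ι} (hc : n c ≠ M.Z.dim) : q c ∈ Cor.DD M := by
  obtain ⟨N, a, b, m, -, -, -, -, hs⟩ := exists_std al
  have he : ∑ r, Cor.xx M (b r) (a r) ∈ Cor.DD M :=
    sum_mem fun r _ => Submodule.subset_span ⟨_, _, rfl⟩
  have h1 : q c * (1 - ∑ r, Cor.xx M (b r) (a r)) * q c ∈ Cor.R0 M :=
    mul_mem (mul_mem (hq.mem c) (hs.mem none)) (hq.mem c)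
  have h2 : W.rho M (q c * (1 - ∑ r, Cor.xx M (b r) (a r)) * q c) = 0 := by
    have := hq.rho_cross hs (a := c) (b := none) hc (one_mem _)
    rw [mul_one, Option.elim_none] at this
    rw [RingHom.map_mul, this, zero_mul]
  have hx := DD_ideal (q c) (q c) he
  have hc2 := (hq.coi.idem c).eq
  have e0 : q c * (1 - ∑ r, Cor.xx M (b r) (a r)) * q c =
      q c - q c * (∑ r, Cor.xx M (b r) (a r)) * q c := by
    rw [mul_sub, mul_one, sub_mul, hc2]
  rw [e0] at h1 h2
  have l1 : q c * (q c * (∑ r, Cor.xx M (b r) (a r)) * q c) =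
      q c * (∑ r, Cor.xx M (b r) (a r)) * q c := by
    rw [← mul_assoc, ← mul_assoc, hc2]
  have l2 : q c * (∑ r, Cor.xx M (b r) (a r)) * q c * q c =
      q c * (∑ r, Cor.xx M (b r) (a r)) * q c := by
    rw [mul_assoc, hc2]
  generalize q c * (∑ r, Cor.xx M (b r) (a r)) * q c = x at h1 h2 hx l1 l2
  have hxR : x ∈ Cor.R0 M := by simpa using sub_mem (hq.mem c) h1
  have e3 : x * x * x = x * x := by
    have := DJD hx (hom_NJ h1 h2) hx
    rw [mul_sub, l2, sub_mul, sub_eq_zero] at this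
    exact this.symm
  have e4 : W.rho M x = W.rho M (q c) := by
    rw [map_sub, sub_eq_zero] at h2
    exact h2.symm
  have e5 := hp (q c - x * x) (sub_mem (hq.mem c) (mul_mem hxR hxR)) (by
    rw [mul_sub, sub_mul, sub_mul, hc2, mul_assoc x, l2, ← mul_assoc (q c), l1, ← mul_assoc, e3,
      e3, sub_self, sub_zero]) (by
    rw [map_sub, RingHom.map_mul, e4, ← RingHom.map_mul, hc2, sub_self])
  rw [sub_eq_zero.1 e5]
  simpa using DD_ideal x 1 hx

theorem off_kill (hq : Fam W M q n) {c : ι} (hc : n c ≠ M.Z.dim) {i : ℕ} {z : CR M.Z}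
    (hz : z ∈ CR.gr M.Z i) (h : n c = 2 * i → W.clR M.Z z = 0) : Cor.tau M (q c) z = 0 := by
  by_cases e : n c = 2 * i
  · exact DD_kill (off_DD al hp hq hc) (h e)
  · rw [← (hq.coi.idem c).eq, K2_tau_mul]
    refine DD_kill (W := W) (off_DD al hp hq hc) ?_
    rw [W.clR_tau, hq.kill c (W.clR_gr hz) (Ne.symm e)]

theorem IS_iff (i : ℕ) (s : ℕ → Prop) : IS W M i s ↔
    (s M.Z.dim → ¬ s (2 * i) → ∀ z ∈ CR.gr M.Z i, W.clR M.Z z = 0 → z = 0) := by
  constructor
  · intro H h1 h2 z hz h0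
    obtain ⟨N, a, b, m, -, -, -, h3, hs⟩ := exists_std al
    rw [← hs.sum_tau z]
    refine Finset.sum_eq_zero ?_
    rintro (_ | r) _
    · exact bgen H h2 hs (a := none) h1 hz
    · exact off_kill al hp hs (c := some r) (h3 r) hz fun _ => h0
  · intro H ι ι' _ _ q n q' n' hq hq' z hz
    have hc : s (2 * i) → W.clR M.Z z = 0 := fun h => by
      rw [← hq.sum_rho (W.clR M.Z z)]
      refine Finset.sum_eq_zero fun c _ => ?_
      by_cases e : n c = 2 * i
      · rw [← W.clR_tau, hz.2 c (e ▸ h), map_zero]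
      · exact hq.kill c (W.clR_gr hz.1) (Ne.symm e)
    refine ⟨hz.1, fun c hs => ?_⟩
    by_cases e : n' c = M.Z.dim
    swap
    · exact off_kill al hp hq' e hz.1 fun e' => hc (e' ▸ hs)
    by_cases h2 : s (2 * i)
    · suffices z = 0 by rw [this, map_zero]
      rw [← hq.sum_tau z]
      refine Finset.sum_eq_zero fun a _ => ?_
      by_cases e' : n a = M.Z.dim
      · exact hz.2 a (e' ▸ e ▸ hs)
      · exact off_kill al hp hq e' hz.1 fun _ => hc h2
    · refine H (e ▸ hs) h2 _ (Cor.tau_gr M (hq'.mem c) hz.1) ?_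
      rw [W.clR_tau, hq'.kill c (W.clR_gr hz.1) fun e' => h2 (e' ▸ hs)]

theorem ker_all (i m : ℕ) : Indep W M.Z (Ker M.Z i m) :=
  (IS_ker M i m).2 ((IS_iff al hp i _).2 fun h1 h2 => by omega)

theorem fil_iff (i : ℕ) (m : ℤ) : Indep W M.Z (Fil M.Z i m) ↔
    (m ≤ 0 → 2 * i < M.Z.dim + m → Set.InjOn (W.cl M.Z) (CH M.Z i)) := by
  rw [IS_fil, IS_iff al hp, K3_inj W i]
  exact ⟨fun H h1 h2 => H (by omega) (by push_cast; omega),
    fun H h1 h2 => H (by push_cast at h2; omega) (by omega)⟩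

end Pool.Agent.Work.MP_10f4af_ag
end

-- merged part: Pool.Agent.Work.MP_10f4af_ag.MC.I
section
/-!
# The image of a sum of projectors
-/

open Function

namespace Pool.Agent.Work.MP_10f4af_ag

open MP_ffcd14_ag (Amb)

universe u v w

variable {k : Type u} [Field k] {P : Amb} [IsAlgClosed k] {K : Type v} [Field K]
  {W : Weil.{u, v, w} k K} {X : SV k P}

theorem Fam.img_eq {T : Type} {M : Mod X T} {ι : Type} [Fintype ι] {q : ι → Cor M} {n : ι → ℕ}
    (h : Fam W M q n) (i : ℕ) (t : Finset ℕ) :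
    act M.Z (∑ j : Fin (2 * M.Z.dim + 1) with j.val ∈ t, ofFam M q n j) '' CH M.Z i =
      CR.val M.Z '' KS M q n i fun j => j ∉ t := by
  have e : ∑ j : Fin (2 * M.Z.dim + 1) with j.val ∈ t, ofFam M q n j =
      Cor.vv M (∑ c with n c ∈ t, q c) := by
    unfold ofFam
    rw [← map_sum, K0_fib q h.le fun j => j ∈ t]
  rw [e]
  ext z
  constructor
  · rintro ⟨y, hy, rfl⟩
    obtain ⟨y, hy', rfl⟩ := exists_val hy
    refine ⟨_, ⟨Cor.tau_gr M (sum_mem fun c _ => h.mem c) hy', fun c hc => ?_⟩,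
      Cor.val_tau M _ y⟩
    rw [← Module.End.mul_apply, ← map_mul, K0_one h.coi.toOrthogonalIdempotents,
      if_neg hc, map_zero, LinearMap.zero_apply]
  · rintro ⟨y, ⟨hy, hy'⟩, rfl⟩
    refine ⟨_, hy, ?_⟩
    rw [← Cor.val_tau, map_sum, LinearMap.sum_apply]
    refine congrArg _ (Eq.trans ?_ (h.sum_tau y))
    exact Finset.sum_subset (Finset.subset_univ _) fun c _ hc => hy' c
      fun e' => hc (Finset.mem_filter.2 ⟨Finset.mem_univ _, e'⟩)

variable [CharZero K]

theorem img_iff {T : Type} {M : Mod X T} (al : ∀ i ≠ M.Z.dim, ∀ x ∈ W.gr M.Z i, x ∈ W.Alg M.Z)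
    (hp : ∀ p ∈ Cor.R0 M, p * p = p → W.rho M p = 0 → p = 0) (i : ℕ) (t : Finset ℕ) :
    Indep W M.Z (fun π => act M.Z (∑ j : Fin (2 * M.Z.dim + 1) with j.val ∈ t, π j) '' CH M.Z i) ↔
      (M.Z.dim ∉ t → 2 * i ∈ t → Set.InjOn (W.cl M.Z) (CH M.Z i)) := by
  rw [K0_IS M i _ _ fun _ _ _ _ h => h.img_eq i t, IS_iff al hp, K3_inj W i, not_not]

theorem inj_zero' (X : SV k P) : Set.InjOn (W.cl X) (CH X 0) := by
  refine (K3_inj W 0).1 fun z hz h0 => ?_
  obtain ⟨q, rfl⟩ := CR.gr_zero hz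
  rw [W.clR_smul, map_one, smul_eq_zero, Rat.cast_eq_zero] at h0
  rw [h0.resolve_right Weil.one_ne, zero_smul]

theorem img_one (al : ∀ i ≠ X.dim, ∀ x ∈ W.gr X i, x ∈ W.Alg X)
    (hp : ∀ p ∈ Cor.R0 (Mod.one X), p * p = p → W.rho (Mod.one X) p = 0 → p = 0) (i : ℕ)
    (t : Finset ℕ) :
    Indep W X (fun π => act X (∑ j : Fin (2 * X.dim + 1) with j.val ∈ t, π j) '' CH X i) ↔
      (0 < i → X.dim ∉ t → 2 * i ∈ t → Set.InjOn (W.cl X) (CH X i)) := by
  have e := img_iff (M := Mod.one X) al hp i t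
  refine e.trans ⟨fun H _ => H, fun H h1 h2 => ?_⟩
  obtain rfl | hi := i.eq_zero_or_pos
  · exact inj_zero' X
  · exact H hi h1 h2

end Pool.Agent.Work.MP_10f4af_ag
end
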