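import Pool.Agent.Work.MP_10f4af_ag.VG.D2
import Pool.Agent.Work.MP_10f4af_ag.T2
import Pool.Agent.Work.MP_10f4af_ag.K6
import Pool.Agent.Work.MP_10f4af_ag.VG.H2
import Pool.Agent.Work.MP_10f4af_ag.MC.Defs
import Pool.Agent.Work.MP_10f4af_ag.MC.I

-- merged part: Pool.Agent.Work.MP_10f4af_ag.MC.F
section
-- merged part: Pool.Agent.Work.MP_10f4af_ag.MC.L0
section
/-!
# Algebraic lemmas

`RF_step'`: the step of the linkage above a fixed prime of the coefficient ring.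
`exists_chain`: a chain of primes with the same contraction below the full prime.
`nak`: Nakayama for a nil subring.  `surj_of_trace`: vanishing power traces.
-/

namespace Pool.Agent.Work.MP_10f4af_ag

universe u

section

open MvPolynomial

variable {R : Type u} [CommRing R] {α J : Type} [Fintype α] [Fintype J] [DecidableEq J]
  {Λ : Matrix J α R} {Good : Ideal (MvPolynomial α R) → Prop}

theorem RF_step' {p : Ideal (MvPolynomial α R)} (hp : p.IsPrime)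
    (hl : LinkOn (lin Λ ⊔ (p.comap C).map C) Good) (hp' : lin Λ ≤ p) (hn : Nice Λ p)
    (h1 : ∀ q, Full Λ q → q.comap C = p.comap C → Good q)
    (h2 : ∀ r : Ideal (MvPolynomial α R), r.IsPrime → lin Λ ≤ r → p.comap C < r.comap C →
      Good r) : Good p := by
  obtain ⟨B, δ, hδ, h⟩ := hn
  have : (p.comap (C : R →+* MvPolynomial α R)).IsPrime := Ideal.comap_isPrime _ _
  obtain ⟨n, θ, hθ, hk, hw, hr⟩ := RF_fibre h (p.comap C) hδ
  have hb : (⊥ : Ideal _).comap θ = RingHom.ker θ := (RingHom.ker_eq_comap_bot θ).symm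
  have hl' : LinkOn ⊥ fun P => Good (P.comap θ) := by
    refine link_comap hθ (hb ▸ sup_le hk (Ideal.map_le_iff_le_comap.2 hw.ge)) hl
      fun r hr' hkr ⟨c, hc, hu⟩ => ?_
    rw [hb] at hkr
    refine h2 r hr' (hk.trans hkr) (lt_of_le_of_ne ?_ fun e => ?_)
    · rw [← hw]
      exact Ideal.comap_mono hkr
    · exact (hr r hr' (hk.trans hkr) e.symm).2 c hc hu
  have h0 : Good ((⊥ : Ideal _).comap θ) := by
    rw [hb]
    exact h1 _ ⟨RingHom.ker_isPrime θ, hk, fun r hr' hlr e => (hr r hr' hlr (e.trans hw)).1⟩ hw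
  obtain ⟨P, hP, e⟩ := A1_lift hθ hp (hr p hp hp' rfl).1 (hr p hp hp' rfl).2
  have := AFF_mv _ (Fin n) _ hl' h0 P hP
  rwa [e] at this

theorem exists_chain {B : Matrix α J R} {δ : R} (h : Λ * B = δ • (1 : Matrix J J R))
    (w : Ideal R) [w.IsPrime] (hδ : δ ∉ w) :
    ∃ q : Finset J → Ideal (MvPolynomial α R), (∀ s, (q s).IsPrime) ∧ (∀ s, (q s).comap C = w) ∧
      (∀ s, ∀ j ∉ s, q (insert j s) < q s) ∧
      ∀ p : Ideal (MvPolynomial α R), p.IsPrime → lin Λ ≤ p → p.comap C = w → q ∅ ≤ p := by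
  have hs : ∀ s : Finset J, Λ.submatrix (Subtype.val : {j // j ∉ s} → J) id *
      B.submatrix id Subtype.val = δ • (1 : Matrix _ _ R) := fun s => by
    rw [← Matrix.submatrix_mul Λ B _ id _ Function.bijective_id, h, Matrix.submatrix_smul,
      Pi.smul_apply, Pi.smul_apply, Matrix.submatrix_one _ Subtype.val_injective]
  have hl : ∀ (s : Finset J) (p : Ideal (MvPolynomial α R)),
      lin (Λ.submatrix (Subtype.val : {j // j ∉ s} → J) id) ≤ p ↔
        ∀ j ∉ s, ∑ a, C (Λ j a) * X a ∈ p := fun s p => by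
    rw [lin, Ideal.span_le, Set.range_subset_iff, Subtype.forall]
    rfl
  choose q h1 h2 h3 h4 using fun s : Finset J => exists_full (hs s) w
  have h5 : ∀ s, C δ ∉ q s := fun s e => hδ (h3 s ▸ e)
  refine ⟨q, h1, h3, fun s j hj => lt_of_le_of_ne (h4 _ _ (h1 s) ((hl _ _).2 fun i hi =>
    (hl _ _).1 (h2 s) i fun e => hi (Finset.mem_insert_of_mem e)) (h3 s).ge (h5 s)) fun e => ?_,
    fun p hp hp' hw => h4 _ p hp ((hl _ _).2 fun j _ => hp' (Ideal.subset_span ⟨j, rfl⟩)) hw.ge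
      fun e => hδ (hw ▸ e)⟩
  let ψ : MvPolynomial α R →+* R ⧸ w :=
    eval₂Hom (Ideal.Quotient.mk w) fun a => Ideal.Quotient.mk w (B a j)
  have e1 : ∀ i, ψ (∑ a, C (Λ i a) * X a) = Ideal.Quotient.mk w ((Λ * B) i j) := fun i => by
    simp only [ψ, map_sum, map_mul, eval₂Hom_C, eval₂Hom_X', Matrix.mul_apply]
  have e2 : ∀ c, ψ (C c) = 0 ↔ c ∈ w := fun c => by
    simp only [ψ, eval₂Hom_C, Ideal.Quotient.eq_zero_iff_mem]
  have e3 := h4 (insert j s) (RingHom.ker ψ) (RingHom.ker_isPrime ψ) ((hl _ _).2 fun i hi => by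
    rw [RingHom.mem_ker, e1, h, Matrix.smul_apply,
      Matrix.one_apply_ne (ne_of_mem_of_not_mem (Finset.mem_insert_self _ _) hi).symm, smul_zero,
      map_zero])
    (fun c hc => (e2 c).2 hc) fun e => hδ ((e2 δ).1 e)
  have e4 := e3 (e ▸ (hl _ _).1 (h2 s) j hj)
  rw [RingHom.mem_ker, e1, h, Matrix.smul_apply, Matrix.one_apply_eq, smul_eq_mul, mul_one,
    Ideal.Quotient.eq_zero_iff_mem] at e4
  exact hδ e4

end

theorem nak {A ι : Type*} [Ring A] (N : NonUnitalSubring A) (hN : ∀ x ∈ N, IsNilpotent x)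
    (x : ι → A) (s : Finset ι) : ∀ q : ι → ι → A, (∀ i l, q i l ∈ N) →
      (∀ i, x i = ∑ l ∈ s, q i l * x l) → ∀ i, x i = 0 := by
  classical
  induction s using Finset.induction_on with
  | empty => exact fun q _ h i => h i
  | insert a s ha ih =>
    intro q hq h
    simp only [Finset.sum_insert ha] at h
    obtain ⟨n, hn⟩ := hN _ (hq a a)
    have h1 : ∀ m, ∀ y ∈ N, q a a ^ m * y ∈ N := fun m y hy => by
      induction m with
      | zero => rwa [pow_zero, one_mul]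
      | succ m ih => exact pow_succ' (q a a) m ▸ mul_assoc (q a a) _ y ▸ N.mul_mem (hq a a) ih
    have h2 : x a = ∑ l ∈ s, (∑ m ∈ Finset.range n, q a a ^ m) * q a l * x l := by
      simp only [mul_assoc, ← Finset.mul_sum]
      rw [← sub_eq_iff_eq_add'.2 (h a), ← one_sub_mul, ← mul_assoc, geom_sum_mul_neg, hn, sub_zero,
        one_mul]
    refine ih (fun i l => q i l + q i a * ((∑ m ∈ Finset.range n, q a a ^ m) * q a l))
      (fun i l => N.add_mem (hq i l) (N.mul_mem (hq i a) ?_)) fun i => ?_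
    · rw [Finset.sum_mul]
      exact N.sum_mem fun m _ => h1 m _ (hq a l)
    · simp only [add_mul, Finset.sum_add_distrib, mul_assoc (q i a), ← Finset.mul_sum]
      rw [← h2, add_comm]
      exact h i

open Polynomial in
theorem surj_of_trace {K V : Type*} [Field K] [CharZero K] [AddCommGroup V] [Module K V]
    [FiniteDimensional K V] (φ : Module.End K V)
    (h : ∀ m, LinearMap.trace K V (φ ^ (m + 1)) = 0) : Function.Surjective ⇑(1 - φ) := by
  obtain ⟨q, h1, h2⟩ := exists_eq_pow_rootMultiplicity_mul_and_not_dvd φ.charpoly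
    φ.charpoly_monic.ne_zero 1
  generalize rootMultiplicity 1 φ.charpoly = a at h1
  have h3 : IsCoprime ((X - C 1) ^ (a + 1)) (q * X) := by
    refine IsCoprime.pow_left (IsCoprime.mul_right
      ((irreducible_X_sub_C (1 : K)).coprime_iff_not_dvd.2 h2) ⟨-1, 1, by simp⟩)
  obtain ⟨v, u, h4⟩ := h3
  have h5 : ∀ p : K[X], LinearMap.trace K V (aeval φ (p * X)) = 0 := fun p => by
    induction p using Polynomial.induction_on' with
    | add p q hp hq => rw [add_mul, map_add, map_add, hp, hq, add_zero]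
    | monomial n c =>
      rw [monomial_mul_X, aeval_monomial, ← Algebra.smul_def, map_smul, h, smul_zero]
  have h6 : IsIdempotentElem (aeval φ (u * (q * X))) := by
    have e : u * (q * X) * (u * (q * X)) = u * (q * X) - u * X * v * (X - C 1) * φ.charpoly := by
      rw [h1]
      linear_combination (u * (q * X)) * h4
    rw [IsIdempotentElem, ← map_mul, e, map_sub, map_mul _ _ φ.charpoly, φ.aeval_self_charpoly,
      mul_zero, sub_zero]
  have h7 := h5 (u * q)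
  rw [mul_assoc, (LinearMap.IsIdempotentElem.isProj_range _ h6).trace, Nat.cast_eq_zero,
    Submodule.finrank_eq_zero, LinearMap.range_eq_bot] at h7
  have h8 := congrArg (aeval φ) h4
  rw [map_add, h7, add_zero, pow_succ', mul_left_comm, map_mul, map_one, map_sub, aeval_X,
    map_one, ← neg_mul_neg, neg_sub] at h8
  exact fun y => ⟨_, LinearMap.congr_fun h8 y⟩

end Pool.Agent.Work.MP_10f4af_ag
end

-- merged part: Pool.Agent.Work.MP_10f4af_ag.MC.L1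
section
/-!
# Cycles on a generic section of a variety defined over the constants

The ambient closed set `Y₀` is cut out by forms with coefficients in `k₀`, and `L` is cut out of
`Y₀` by generic equations.  A subvariety `Z` of `L` is linked to subvarieties which are, up to
conjugation, the whole intersection with `L` of a subvariety `V` of `Y₀` of the expected dimension.
-/

open MvPolynomial Topology TopologicalSpace Finsupp

namespace Pool.Agent.Work.MP_10f4af_ag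

open MP_ffcd14_ag hiding len vl cyc pl Weil idl_hmg mem_idl idl_prime idl_le_iff lin

universe u

variable {k : Type u} [Field k] {S : Amb} {k₀ : Type u} [Field k₀] {α J : Type}

theorem form_map (κ : k₀ →+* k) {g : MvPolynomial S.V k₀} {a : S.ι →₀ ℕ} (h : IsForm g a) :
    IsForm (MvPolynomial.map κ g) a := fun d hd =>
  h fun e => hd (by rw [coeff_map, e, map_zero])

/-- The forms with coefficients in `k₀` which vanish on `Z`. -/
def kc (κ : k₀ →+* k) (Z : Sub k S) : Set (MvPolynomial S.V k₀) :=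
  {g | (∃ a, IsForm g a) ∧ Van (Z : Set (S.Pt k)) (MvPolynomial.map κ g)}

/-- The ideal of `Z` in a chart, over `k₀`. -/
noncomputable def cw (κ : k₀ →+* k) (Z : Sub k S) (ς : ∀ i, S.σ i) : Ideal (MvPolynomial S.V k₀) :=
  (chI (Z : Set (S.Pt k)) ς).comap (MvPolynomial.map κ)

variable {κ : k₀ →+* k} {Z T V : Sub k S} {ς : ∀ i, S.σ i}

theorem cw_form (hZ : ∃ x ∈ Z, InCh ς x) {g : MvPolynomial S.V k₀} {a : S.ι →₀ ℕ}
    (h : IsForm g a) : g ∈ cw κ Z ς ↔ g ∈ kc κ Z :=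
  (mem_chI_form hZ (form_map κ h)).trans (and_iff_right ⟨a, h⟩).symm

theorem cw_le (hZ : ∃ x ∈ Z, InCh ς x) (hT : ∃ x ∈ T, InCh ς x) :
    cw κ Z ς ≤ cw κ T ς ↔ kc κ Z ⊆ kc κ T := by
  refine ⟨fun h g hg => ?_, fun h f hf => ?_⟩
  · obtain ⟨a, ha⟩ := hg.1
    exact (cw_form hT ha).1 (h ((cw_form hZ ha).2 hg))
  · obtain ⟨g, a, ha, e⟩ := homog ς f
    let := κ.toAlgebra
    have key : ∀ U : Sub k S, g ∈ cw κ U ς ↔ f ∈ cw κ U ς := fun U =>
      forall₃_congr fun x _ hx => by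
        rw [eval_map, eval_map]
        exact Eq.congr_left (e k _ (hat_one hx))
    exact (key T).1 ((cw_form hT ha).2 (h ((cw_form hZ ha).1 ((key Z).2 hf))))

theorem cw_prime (hZ : ∃ x ∈ Z, InCh ς x) : (cw κ Z ς).IsPrime :=
  haveI := chI_prime hZ
  Ideal.comap_isPrime _ _

theorem cw_eq (hZ : ∃ x ∈ Z, InCh ς x) (hT : ∃ x ∈ T, InCh ς x) :
    cw κ Z ς = cw κ T ς ↔ kc κ Z = kc κ T := by
  rw [le_antisymm_iff, cw_le hZ hT, cw_le hT hZ, Set.Subset.antisymm_iff]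

theorem kc_lt (h : kc κ Z ⊆ kc κ T) (h' : ¬ kc κ T ⊆ kc κ Z) :
    Ideal.span (kc κ Z) < Ideal.span (kc κ T) := by
  refine lt_of_le_of_ne (Ideal.span_mono h) fun e => h' fun g hg => ⟨hg.1, van_idl ?_⟩
  refine (Ideal.span_le (I := (idl (Z : Set (S.Pt k))).comap (MvPolynomial.map κ))).2 ?_
    (e ▸ Ideal.subset_span hg)
  rintro f ⟨⟨a, ha⟩, hf⟩
  exact (mem_idl (form_map κ ha)).2 hf

theorem kc_ch (hZ : ∃ x ∈ Z, InCh ς x) (h : kc κ T ⊆ kc κ Z) : ∃ x ∈ T, InCh ς x :=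
  exists_inCh_iff.2 fun i hi => exists_inCh_iff.1 hZ i <| by
    have := (h (a := X ⟨i, ς i⟩) ⟨⟨_, IsForm.X _⟩, by rwa [map_X]⟩).2
    rwa [map_X] at this

theorem kc_anti (h : T ≤ Z) : kc κ Z ⊆ kc κ T := fun _ hg => ⟨hg.1, fun x hx => hg.2 x (h hx)⟩

variable [Algebra (MvPolynomial α k₀) k]

variable (α k₀) in
/-- The ideal of `Z` in a chart, in the ring of polynomials in the parameters. -/
noncomputable def ct (Z : Sub k S) (ς : ∀ i, S.σ i) :
    Ideal (MvPolynomial α (MvPolynomial S.V k₀)) :=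
  (ctr (MvPolynomial α k₀) Z ς).comap (commAlgEquiv k₀ α S.V).toRingEquiv.toRingHom

theorem ct_comap : (ct k₀ α Z ς).comap C = cw (bs k α k₀) Z ς := by
  ext f
  change MvPolynomial.map _ (commAlgEquiv k₀ α S.V (C f)) ∈ chI _ _ ↔ _
  rw [commAlgEquiv_C, map_map]
  rfl

theorem C_mem_ct {f : MvPolynomial S.V k₀} : C f ∈ ct k₀ α Z ς ↔ f ∈ cw (bs k α k₀) Z ς := by
  rw [← ct_comap, Ideal.mem_comap]

theorem ct_prime (hZ : ∃ x ∈ Z, InCh ς x) : (ct k₀ α Z ς).IsPrime :=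
  haveI := ctr_prime (B := MvPolynomial α k₀) hZ
  Ideal.comap_isPrime _ _

theorem ct_eq {p : Ideal (MvPolynomial α (MvPolynomial S.V k₀))} : ct k₀ α Z ς = p ↔
    ctr (MvPolynomial α k₀) Z ς = p.comap (commAlgEquiv k₀ α S.V).toRingEquiv.symm.toRingHom := by
  constructor
  · rintro rfl
    rw [ct, Ideal.comap_comap, RingEquiv.toRingHom_comp_symm_toRingHom, Ideal.comap_id]
  · intro h
    rw [ct, h, Ideal.comap_comap, RingEquiv.symm_toRingHom_comp_toRingHom, Ideal.comap_id]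

theorem cw_one (i : S.ι) : X ⟨i, ς i⟩ - 1 ∈ cw κ Z ς := by
  intro x _ hx
  rw [map_sub, map_X, map_one, map_sub, eval_X, map_one, hat, div_self (hx i), sub_self]

omit [Algebra (MvPolynomial α k₀) k] in
theorem ct_one {q : Ideal (MvPolynomial α (MvPolynomial S.V k₀))} (h : cw κ Z ς ≤ q.comap C)
    (i : S.ι) :
    X ⟨i, ς i⟩ - 1 ∈ q.comap (commAlgEquiv k₀ α S.V).toRingEquiv.symm.toRingHom := by
  have h1 : C (X ⟨i, ς i⟩ - 1) ∈ q := h (cw_one i)
  have h2 : (commAlgEquiv k₀ α S.V).symm (X ⟨i, ς i⟩ - 1) = C (X ⟨i, ς i⟩ - 1) := by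
    rw [AlgEquiv.symm_apply_eq, commAlgEquiv_C, map_sub, map_X, map_one]
  exact Ideal.mem_comap.2 (h2 ▸ h1)

variable [IsAlgClosed k] [FaithfulSMul (MvPolynomial α k₀) k]
  [Algebra.IsAlgebraic (MvPolynomial α k₀) k]

theorem ct_down (hZ : ∃ x ∈ Z, InCh ς x) {q : Ideal (MvPolynomial α (MvPolynomial S.V k₀))}
    (hq : q.IsPrime) (h : q ≤ ct k₀ α Z ς) (h1 : cw κ T ς ≤ q.comap C) :
    ∃ Z' : Sub k S, Z ≤ Z' ∧ ct k₀ α Z' ς = q :=
  (ctr_down hZ (Ideal.comap_isPrime _ q) ((Ideal.comap_mono h).trans (ct_eq.1 rfl).ge)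
    (ct_one h1)).imp fun _ h => ⟨h.1, ct_eq.2 h.2⟩

theorem ct_conj (hZ : ∃ x ∈ Z, InCh ς x) (hT : ∃ x ∈ T, InCh ς x)
    (e : ct k₀ α Z ς = ct k₀ α T ς) :
    ∃ σ : k ≃ₐ[MvPolynomial α k₀] k, T = sg σ.toRingEquiv Z :=
  ctr_conj hZ hT ((ct_eq.1 e).trans (ct_eq.1 rfl).symm)

variable [Fintype α] [Fintype J] [DecidableEq J] {Λ : Matrix J α (MvPolynomial S.V k₀)}
  {e : J → S.ι →₀ ℕ} (hΛ : ∀ j a, IsForm (MvPolynomial.map (bs k α k₀) (Λ j a)) (e j))

/-- The equations are independent at the point `z`. -/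
def Ind (k₀ : Type u) [Field k₀] [Algebra (MvPolynomial α k₀) k]
    (Λ : Matrix J α (MvPolynomial S.V k₀)) (z : S.Pt k) : Prop :=
  LinearIndependent k fun j a => ev z (MvPolynomial.map (bs k α k₀) (Λ j a))

include hΛ

omit [IsAlgClosed k] [FaithfulSMul (MvPolynomial α k₀) k]
  [Algebra.IsAlgebraic (MvPolynomial α k₀) k] [Fintype J] [DecidableEq J] in
theorem eqn_form (j : J) : IsForm (eqn k Λ j) (e j) :=
  IsWeightedHomogeneous.sum _ _ _ fun a _ => IsWeightedHomogeneous.C_mul (hΛ j a) _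

omit [IsAlgClosed k] [FaithfulSMul (MvPolynomial α k₀) k]
  [Algebra.IsAlgebraic (MvPolynomial α k₀) k] [Fintype J] [DecidableEq J] in
theorem ct_lin (hT : ∃ x ∈ T, InCh ς x) :
    lin Λ ≤ ct k₀ α T ς ↔ ∀ j, Van (T : Set (S.Pt k)) (eqn k Λ j) := by
  rw [lin, Ideal.span_le, Set.range_subset_iff]
  refine forall_congr' fun j => ?_
  have h : commAlgEquiv k₀ α S.V (∑ a, C (Λ j a) * X a) = eqB Λ j := by
    simp only [map_sum, map_mul, commAlgEquiv_C, commAlgEquiv_X, eqB, mul_comm]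
  change commAlgEquiv k₀ α S.V _ ∈ ctr _ T ς ↔ _
  rw [h, ← map_eqB]
  exact ctr_form hT (a := e j) (map_eqB (k := k) Λ j ▸ eqn_form hΛ j)

omit [IsAlgClosed k] [FaithfulSMul (MvPolynomial α k₀) k]
  [Algebra.IsAlgebraic (MvPolynomial α k₀) k] in
theorem ct_nice (hT : ∃ x ∈ T, InCh ς x) {z : S.Pt k} (hz : z ∈ T) (h : Ind k₀ Λ z) :
    ∃ (B : Matrix α J (MvPolynomial S.V k₀)) (δ : MvPolynomial S.V k₀),
      δ ∉ cw (bs k α k₀) T ς ∧ Λ * B = δ • (1 : Matrix J J (MvPolynomial S.V k₀)) := by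
  obtain ⟨B, δ, b, e1, e2, e3⟩ := nice_of (bs k α k₀) Λ hΛ h
  exact ⟨B, δ, fun hδ => e3 ((mem_chI_form hT e2).1 hδ z hz), e1⟩

variable {Y L : Set (S.Pt k)}
  (hY : ∀ Z T : Sub k S, (Z : Set (S.Pt k)) ⊆ Y → kc (bs k α k₀) Z ⊆ kc (bs k α k₀) T →
    (T : Set (S.Pt k)) ⊆ Y)
  (hL : ∀ z, z ∈ L ↔ z ∈ Y ∧ ∀ j, ev z (eqn k Λ j) = 0)
include hY hL

omit [IsAlgClosed k] [FaithfulSMul (MvPolynomial α k₀) k]
  [Algebra.IsAlgebraic (MvPolynomial α k₀) k] [Fintype J] [DecidableEq J] in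
theorem L1_sub (hZ : (Z : Set (S.Pt k)) ⊆ Y) (h : kc (bs k α k₀) Z ⊆ kc (bs k α k₀) T)
    (hT : ∃ x ∈ T, InCh ς x) (hl : lin Λ ≤ ct k₀ α T ς) : (T : Set (S.Pt k)) ⊆ L :=
  fun z hz => (hL z).2 ⟨hY Z T hZ h hz, fun j => (ct_lin hΛ hT).1 hl j z hz⟩

theorem L1_full (hZ : (Z : Set (S.Pt k)) ⊆ L) (hς : ∃ x ∈ Z, InCh ς x)
    (hf : Full Λ (ct k₀ α Z ς)) {z : S.Pt k} (hz : z ∈ Z) (hi : Ind k₀ Λ z) :
    ∃ V : Sub k S, Z ≤ V ∧ (V : Set (S.Pt k)) ⊆ Y ∧ sdim V = sdim Z + Fintype.card J ∧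
      ∀ T ≤ V, (T : Set (S.Pt k)) ⊆ L → (∃ z ∈ T, Ind k₀ Λ z) →
        ∃ σ : k ≃ₐ[MvPolynomial α k₀] k, T ≤ sg σ.toRingEquiv Z := by
  have hZY : (Z : Set (S.Pt k)) ⊆ Y := fun z hz => ((hL z).1 (hZ hz)).1
  have hl : ∀ {T : Sub k S} {ς}, (T : Set (S.Pt k)) ⊆ L → (∃ x ∈ T, InCh ς x) →
      lin Λ ≤ ct k₀ α T ς := fun hT h => (ct_lin hΛ h).2 fun j z hz => ((hL z).1 (hT hz)).2 j
  have key : ∀ V : Sub k S, kc (bs k α k₀) V = kc (bs k α k₀) Z → ∀ T ≤ V,
      (T : Set (S.Pt k)) ⊆ L → (∃ z ∈ T, Ind k₀ Λ z) →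
        ∃ σ : k ≃ₐ[MvPolynomial α k₀] k, T ≤ sg σ.toRingEquiv Z := by
    rintro V hV T h1 h2 ⟨z, hz, hi⟩
    obtain ⟨ς', hT⟩ := Noeth.mono_not_van T
    obtain ⟨B, δ, hδ, hB⟩ := ct_nice hΛ hT hz hi
    have hV' := E1_ch hT h1
    have := cw_prime (κ := bs k α k₀) hV'
    obtain ⟨q, q1, q2, q3, q4⟩ := exists_full hB (cw (bs k α k₀) V ς')
    obtain ⟨Z', a1, a2⟩ := ct_down hT q1 (q4 _ (ct_prime hT) (hl h2 hT)
      (((cw_le hV' hT).2 (kc_anti h1)).trans ct_comap.ge) fun e => hδ (C_mem_ct.1 e)) q3.ge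
    have a3 := E1_ch hT a1
    have a4 : kc (bs k α k₀) Z' = kc (bs k α k₀) Z :=
      ((cw_eq a3 hV').1 (by rw [← q3, ← a2, ct_comap])).trans hV
    have a5 := kc_ch hς a4.le
    have a6 := L1_sub hΛ hY hL hZY a4.ge a3 (a2 ▸ q2)
    have a7 := (cw_eq a5 hς).2 a4
    obtain ⟨Z'', b1, b2⟩ := ct_down a5 hf.1 (hf.2.2 _ (ct_prime a5) (hl a6 a5)
      (by rw [ct_comap, ct_comap, a7])) ct_comap.ge
    obtain ⟨σ, rfl⟩ := ct_conj hς (E1_ch a5 b1) b2.symm
    exact ⟨σ, a1.trans b1⟩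
  obtain ⟨B, δ, hδ, hB⟩ := ct_nice hΛ hς hz hi
  have := cw_prime (κ := bs k α k₀) hς
  obtain ⟨q, q1, q2, q3, q4⟩ := exists_chain hB _ hδ
  have ch : ∀ s : Finset J, ∃ V : Sub k S, Z ≤ V ∧ ct k₀ α V ς = q s ∧
      sdim Z + s.card ≤ sdim V := fun s => by
    induction s using Finset.induction_on with
    | empty =>
      obtain ⟨V, h1, h2⟩ := ct_down hς (q1 ∅) (q4 _ hf.1 hf.2.1 ct_comap) (q2 ∅).ge
      exact ⟨V, h1, h2, sdim_mono h1⟩
    | insert j s hj ih =>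
      obtain ⟨V, h1, h2, h3⟩ := ih
      obtain ⟨V', h4, h5⟩ := ct_down (E1_ch hς h1) (q1 (insert j s)) (h2 ▸ (q3 s j hj).le)
        (q2 _).ge
      have h6 := sdim_lt (lt_of_le_of_ne h4 fun e => (q3 s j hj).ne (by rw [← h5, ← e, h2]))
      exact ⟨V', h1.trans h4, h5, by rw [Finset.card_insert_of_notMem hj]; omega⟩
  obtain ⟨V, h1, h2, h3⟩ := ch Finset.univ
  have h4 : kc (bs k α k₀) V = kc (bs k α k₀) Z :=
    (cw_eq (E1_ch hς h1) hς).1 (by rw [← q2 Finset.univ, ← h2, ct_comap])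
  have h5 := hY Z V hZY h4.ge
  refine ⟨V, h1, h5, le_antisymm ?_ h3, key V h4⟩
  obtain ⟨U, u1, u2, u3, u4⟩ := krull_list (fs := Finset.univ.toList.map (eqn k Λ))
    (fun f hf => by
      obtain ⟨j, -, rfl⟩ := List.mem_map.1 hf
      exact ⟨_, eqn_form hΛ j⟩) h1 fun f hf => by
      obtain ⟨j, -, rfl⟩ := List.mem_map.1 hf
      exact fun z hz => ((hL z).1 (hZ hz)).2 j
  obtain ⟨σ, hσ⟩ := key V h4 U u2 (fun z hz => (hL z).2 ⟨h5 (u2 hz), fun j =>
    u3 _ (List.mem_map.2 ⟨j, Finset.mem_toList.2 (Finset.mem_univ j), rfl⟩) z hz⟩) ⟨z, u1 hz, hi⟩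
  have u5 := sdim_mono hσ
  rw [sdim_sg] at u5
  rw [List.length_map, Finset.length_toList, Finset.card_univ] at u4
  omega

theorem LK' {N : Submodule ℚ (Cyc k S)} {d : ℕ} (hR : Rt L ≤ N)
    (hG : ∀ (σ : k ≃ₐ[MvPolynomial α k₀] k) (Z : Sub k S), (Z : Set (S.Pt k)) ⊆ L → sdim Z = d →
      cS (sg σ.toRingEquiv Z) - cS Z ∈ N)
    (bad : ∀ Z : Sub k S, (Z : Set (S.Pt k)) ⊆ L → sdim Z = d → (¬ ∃ z ∈ Z, Ind k₀ Λ z) →
      cS Z ∈ N)
    (full : ∀ Z V : Sub k S, (Z : Set (S.Pt k)) ⊆ L → sdim Z = d → Z ≤ V →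
      (V : Set (S.Pt k)) ⊆ Y → sdim V = d + Fintype.card J →
      (∀ T ≤ V, (T : Set (S.Pt k)) ⊆ L → (∃ z ∈ T, Ind k₀ Λ z) →
        ∃ σ : k ≃ₐ[MvPolynomial α k₀] k, T ≤ sg σ.toRingEquiv Z) → cS Z ∈ N)
    (hZ : (Z : Set (S.Pt k)) ⊆ L) (hd : sdim Z = d) : cS Z ∈ N := by
  induction hu : Ideal.span (kc (bs k α k₀) Z) using IsNoetherian.induction generalizing Z with
  | hgt u ih =>
    subst hu
    have ih' : ∀ T : Sub k S, kc (bs k α k₀) Z ⊆ kc (bs k α k₀) T →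
        ¬ kc (bs k α k₀) T ⊆ kc (bs k α k₀) Z → (T : Set (S.Pt k)) ⊆ L → sdim T = d →
        cS T ∈ N := fun T h1 h2 h3 h4 => ih _ (kc_lt h1 h2) h3 h4 rfl
    have hZY : (Z : Set (S.Pt k)) ⊆ Y := fun z hz => ((hL z).1 (hZ hz)).1
    by_cases hb : ∃ z ∈ Z, Ind k₀ Λ z
    swap
    · exact bad Z hZ hd hb
    obtain ⟨z, hz, hi⟩ := hb
    obtain ⟨ς, hς⟩ := Noeth.mono_not_van Z
    let θ := (commAlgEquiv k₀ α S.V).toRingEquiv.symm.toRingHom
    have hI : ∀ T : Sub k S, (∃ x ∈ T, InCh ς x) →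
        lin Λ ⊔ ((ct k₀ α Z ς).comap C).map C ≤ ct k₀ α T ς →
        kc (bs k α k₀) Z ⊆ kc (bs k α k₀) T ∧ (T : Set (S.Pt k)) ⊆ L := fun T hT h => by
      have h1 := Ideal.map_le_iff_le_comap.1 (le_sup_right.trans h)
      rw [ct_comap, ct_comap, cw_le hς hT] at h1
      exact ⟨h1, L1_sub hΛ hY hL hZY h1 hT (le_sup_left.trans h)⟩
    have link := link_comap (θ := θ) (fun y => ⟨(commAlgEquiv k₀ α S.V) y, 1, by simp, by simp [θ]⟩)
      le_rfl (geo_link {z | z ∈ L ∧ ∀ g ∈ kc (bs k α k₀) Z, ev z (MvPolynomial.map _ g) = 0} N d ς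
        ((lin Λ ⊔ ((ct k₀ α Z ς).comap C).map C).comap θ)
        (ct_one (ct_comap.ge.trans (Ideal.map_le_iff_le_comap.1 le_sup_right)))
        (fun T hT h z hz => by
          have h1 := hI T hT (by
            rw [ct_eq.1 rfl] at h
            exact A1_le (fun y => ⟨(commAlgEquiv k₀ α S.V) y, 1, by simp, by simp [θ]⟩) h)
          exact ⟨h1.2 hz, fun g hg => (h1.1 hg).2 z hz⟩)
        ((Rt_mono fun z hz => hz.1).trans hR) (fun σ T hT => hG σ T fun z hz => (hT hz).1)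
        fun T hT hd hn => ih' T (fun g hg => ⟨hg.1, fun z hz => (hT hz).2 g hg⟩)
          (fun h => hn (kc_ch hς h)) (fun z hz => (hT hz).1) hd)
      fun r hr _ ⟨c, hc, hu⟩ => (hr.ne_top (Ideal.eq_top_of_isUnit_mem _ hc
        (by simpa [θ] using hu.map (commAlgEquiv k₀ α S.V)))).elim
    obtain ⟨B, δ, hδ, hB⟩ := ct_nice hΛ hς hz hi
    refine RF_step' (ct_prime hς) link ((ct_lin hΛ hς).2 fun j z hz => ((hL z).1 (hZ hz)).2 j)
      ⟨B, δ, fun e => hδ (C_mem_ct.1 e), hB⟩ (fun q hq e T hT eT hd' => ?_)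
      (fun r _ hl e T hT eT hd' => ?_) Z hς (ct_eq.1 rfl) hd
    · obtain rfl := ct_eq.2 eT
      have h1 := (hI T hT (sup_le hq.2.1 (Ideal.map_le_iff_le_comap.2 e.ge))).2
      by_cases hb : ∃ z ∈ T, Ind k₀ Λ z
      swap
      · exact bad T h1 hd' hb
      obtain ⟨z, hz, hi⟩ := hb
      obtain ⟨V, v1, v2, v3, v4⟩ := L1_full hΛ hY hL h1 hT hq hz hi
      exact full T V h1 hd' v1 v2 (hd' ▸ v3) v4
    · obtain rfl := ct_eq.2 eT
      have h1 := hI T hT (sup_le hl (Ideal.map_le_iff_le_comap.2 e.le))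
      rw [ct_comap, ct_comap] at e
      exact ih' T h1.1 (fun h => e.not_ge ((cw_le hT hς).2 h)) h1.2 hd'

end Pool.Agent.Work.MP_10f4af_ag
end

-- merged part: Pool.Agent.Work.MP_10f4af_ag.MC.T0
section
/-! # Products of several varieties and the calculus of correspondences between them -/

open Function Function.Embedding

namespace Pool.Agent.Work.MP_10f4af_ag

open MP_ffcd14_ag hiding len vl cyc pl Weil idl_hmg mem_idl idl_prime idl_le_iff

universe u w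

variable {k : Type u} [Field k] {P : Amb}

/-- `Z` is the product of the varieties `τ t`; the coordinates are those of a power of `O`. -/
structure Md (O : SV k P) {T : Type} (τ : T → SV k P) where
  M : Mod O T
  Z : SV k M.S
  mem : ∀ z, z ∈ Z.pts ↔ ∀ t, (M.β t).pr z ∈ (τ t).pts

/-- An embedding of index sets which respects the factors. -/
structure Em {T T' : Type} (τ : T → SV k P) (τ' : T' → SV k P) where
  f : T ↪ T'
  h : ∀ t, τ' (f t) = τ t

namespace Md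

variable {O : SV k P} {T T' T'' : Type} {τ : T → SV k P} {τ' : T' → SV k P} {τ'' : T'' → SV k P}
  (M : Md O τ) (M' : Md O τ') (M'' : Md O τ'')

/-- The coordinate map of an embedding. -/
noncomputable def crd (f : T → T') : Crd k M.M.S M'.M.S := M.M.crd M'.M f

theorem crd_mem {f : T → T'} (h : ∀ t, τ' (f t) = τ t) {z : M'.M.S.Pt k} (hz : z ∈ M'.Z.pts) :
    (M.crd M' f).pr z ∈ M.Z.pts :=
  (M.mem _).2 fun t => by
    rw [crd, Mod.crd_pr, ← h]
    exact (M'.mem z).1 hz _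

theorem pd {f : T → T''} {g : T' → T''} (h : Bijective (Sum.elim f g)) (hf : ∀ t, τ'' (f t) = τ t)
    (hg : ∀ t, τ'' (g t) = τ' t) : Pd M.Z M'.Z M''.Z (M.crd M'' f) (M'.crd M'' g) := by
  refine ⟨(M.M.pd M'.M M''.M h).bij, fun z =>
    ⟨fun hz => ⟨M.crd_mem M'' hf hz, M'.crd_mem M'' hg hz⟩, fun hz => (M''.mem z).2 fun t => ?_⟩⟩
  obtain ⟨t | t, rfl⟩ := h.2 t
  · have := (M.mem _).1 hz.1 t
    rwa [crd, Mod.crd_pr, ← hf] at this
  · have := (M'.mem _).1 hz.2 t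
    rwa [crd, Mod.crd_pr, ← hg] at this

variable (O) in
/-- One factor. -/
def o (A : SV k P) : Md O fun _ : Unit => A where
  M := Mod.one O
  Z := A
  mem _ := ⟨fun h _ => h, fun h => h ()⟩

/-- Change of the index set. -/
def re (e : T' ≃ T) (h : ∀ t, τ' t = τ (e t)) : Md O τ' where
  M := { S := M.M.S
         Z := M.M.Z
         β := fun t => M.M.β (e t)
         fin := haveI := M.M.fin; Finite.of_equiv _ e.symm
         bε := M.M.bε.comp (e.prodCongr (Equiv.refl _)).bijective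
         bψ := M.M.bψ.comp (e.prodCongr (Equiv.refl _)).bijective
         mem := fun z => (M.M.mem z).trans e.surjective.forall }
  Z := M.Z
  mem z := by
    simp only [h]
    exact (M.mem z).trans e.surjective.forall

variable [IsAlgClosed k]

/-- The product of two models. -/
noncomputable def prod : Md O (Sum.elim τ τ') where
  M := M.M.prod M'.M
  Z := M.Z.prod M'.Z
  mem z := by
    refine mem_prod.trans ?_
    rw [M.mem, M'.mem, Sum.forall]
    rfl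

theorem exists_md (O : SV k P) (T : Type) [Finite T] : ∀ τ : T → SV k P, Nonempty (Md O τ) := by
  refine Finite.induction_empty_option (P := fun T => ∀ τ : T → SV k P, Nonempty (Md O τ))
    (fun e h τ => ?_) (fun τ => ?_) (fun h τ => ?_) T
  · exact ⟨(h (τ ∘ e)).some.re e.symm fun t => congrArg τ (e.apply_symm_apply t).symm⟩
  · exact ⟨⟨Mod.pow O _, (Mod.pow O _).Z, fun z =>
      ((Mod.pow O _).mem z).trans ⟨fun _ t => t.elim, fun _ t => t.elim⟩⟩⟩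
  · exact ⟨((h (τ ∘ some)).some.prod (o O (τ none))).re (Equiv.optionEquivSumPUnit _)
      (by rintro (_ | t) <;> rfl)⟩

/-- The complementary factor. -/
noncomputable def co (f : T → T') : Md O fun t : {t // t ∉ Set.range f} => τ' t.1 :=
  haveI := M'.M.fin
  (exists_md O _ _).some

theorem pd_co (f : Em τ τ') :
    Pd M.Z (M'.co f.f).Z M'.Z (M.crd M' f.f) ((M'.co f.f).crd M' Subtype.val) :=
  M.pd _ M' (Mod.T0_compl f.f.injective) f.h fun _ => rfl

theorem isPr (f : Em τ τ') : IsPr M.Z M'.Z (M.crd M' f.f).ε := ⟨_, _, _, (M.pd_co M' f).isProd⟩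

omit [IsAlgClosed k] in
theorem crd_comp {f : T → T'} {g : T' → T''} {h : T → T''} (e : ∀ t, g (f t) = h t) :
    (M'.crd M'' g).ε ∘ (M.crd M' f).ε = (M.crd M'' h).ε := M.M.crd_comp M'.M M''.M e

end Md

/-- Rings attached to the products, with pull-back and push-forward. -/
structure Th2 (O : SV k P) where
  E : ∀ {T : Type} {τ : T → SV k P}, Md O τ → Type w
  [ring : ∀ {T : Type} {τ : T → SV k P} (M : Md O τ), Ring (E M)]
  pl : ∀ {T T' : Type} {τ : T → SV k P} {τ' : T' → SV k P} (M : Md O τ) (M' : Md O τ'),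
    Em τ τ' → E M →+* E M'
  ps : ∀ {T T' : Type} {τ : T → SV k P} {τ' : T' → SV k P} (M : Md O τ) (M' : Md O τ'),
    Em τ τ' → E M' →+ E M
  pl_pl : ∀ {T T' T'' : Type} {τ : T → SV k P} {τ' : T' → SV k P} {τ'' : T'' → SV k P}
    (M : Md O τ) (M' : Md O τ') (M'' : Md O τ'') {f : Em τ τ'} {g : Em τ' τ''} (h : Em τ τ''),
    (∀ t, g.f (f.f t) = h.f t) → ∀ x, pl M' M'' g (pl M M' f x) = pl M M'' h x
  ps_ps : ∀ {T T' T'' : Type} {τ : T → SV k P} {τ' : T' → SV k P} {τ'' : T'' → SV k P}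
    (M : Md O τ) (M' : Md O τ') (M'' : Md O τ'') {f : Em τ τ'} {g : Em τ' τ''} (h : Em τ τ''),
    (∀ t, g.f (f.f t) = h.f t) → ∀ x, ps M M' f (ps M' M'' g x) = ps M M'' h x
  proj_l : ∀ {T T' : Type} {τ : T → SV k P} {τ' : T' → SV k P} (M : Md O τ) (M' : Md O τ')
    (f : Em τ τ') (x : E M) (z : E M'), ps M M' f (pl M M' f x * z) = x * ps M M' f z
  proj_r : ∀ {T T' : Type} {τ : T → SV k P} {τ' : T' → SV k P} (M : Md O τ) (M' : Md O τ')
    (f : Em τ τ') (x : E M) (z : E M'), ps M M' f (z * pl M M' f x) = ps M M' f z * x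
  bc : ∀ {T₀ T₁ T₂ T₃ : Type} {τ₀ : T₀ → SV k P} {τ₁ : T₁ → SV k P} {τ₂ : T₂ → SV k P}
    {τ₃ : T₃ → SV k P} (M₀ : Md O τ₀) (M₁ : Md O τ₁) (M₂ : Md O τ₂) (M₃ : Md O τ₃)
    (f₁ : Em τ₀ τ₁) (f₂ : Em τ₀ τ₂) (g₁ : Em τ₁ τ₃) (g₂ : Em τ₂ τ₃),
    (∀ t, g₁.f (f₁.f t) = g₂.f (f₂.f t)) → (∀ u, u ∈ Set.range g₁.f ∨ u ∈ Set.range g₂.f) →
    (∀ a b, g₁.f a = g₂.f b → b ∈ Set.range f₂.f) →
    ∀ x, pl M₀ M₂ f₂ (ps M₀ M₁ f₁ x) = ps M₂ M₃ g₂ (pl M₁ M₃ g₁ x)

attribute [instance] Th2.ring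

/-- One factor. -/
abbrev t1 (A : SV k P) : Unit → SV k P := fun _ => A

/-- Two factors. -/
abbrev t2 (A B : SV k P) : Unit ⊕ Unit → SV k P := Sum.elim (t1 A) (t1 B)

/-- Three factors. -/
abbrev t3 (A B C : SV k P) : (Unit ⊕ Unit) ⊕ Unit → SV k P := Sum.elim (t2 A B) (t1 C)

/-- Four factors. -/
abbrev t4 (A B C D : SV k P) : ((Unit ⊕ Unit) ⊕ Unit) ⊕ Unit → SV k P :=
  Sum.elim (t3 A B C) (t1 D)

namespace Em

variable (A B C D : SV k P)

/-- First of two. -/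
def a1 : Em (t1 A) (t2 A B) := ⟨inl, fun _ => rfl⟩

/-- Second of two. -/
def a2 : Em (t1 B) (t2 A B) := ⟨inr, fun _ => rfl⟩

/-- First of three. -/
def b1 : Em (t1 A) (t3 A B C) := ⟨inl.trans inl, fun _ => rfl⟩

/-- Third of three. -/
def b3 : Em (t1 C) (t3 A B C) := ⟨inr, fun _ => rfl⟩

/-- Factors one, two of three. -/
def b12 : Em (t2 A B) (t3 A B C) := ⟨e12 Unit, fun _ => rfl⟩

/-- Factors one, three of three. -/
def b13 : Em (t2 A C) (t3 A B C) := ⟨e13 Unit, by rintro (t | t) <;> rfl⟩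

/-- Factors two, three of three. -/
def b23 : Em (t2 B C) (t3 A B C) := ⟨e23 Unit, by rintro (t | t) <;> rfl⟩

/-- Factors one, two of four. -/
def c12 : Em (t2 A B) (t4 A B C D) := ⟨inl.trans inl, fun _ => rfl⟩

/-- Factors two, three of four. -/
def c23 : Em (t2 B C) (t4 A B C D) := ⟨(e23 Unit).trans inl, by rintro (t | t) <;> rfl⟩

/-- Factors three, four of four. -/
def c34 : Em (t2 C D) (t4 A B C D) :=
  ⟨inr.sumMap (Embedding.refl Unit), by rintro (t | t) <;> rfl⟩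

/-- Factors one, four of four. -/
def c14 : Em (t2 A D) (t4 A B C D) :=
  ⟨(inl.trans inl).sumMap (Embedding.refl Unit), by rintro (t | t) <;> rfl⟩

/-- Factors one, two, three of four. -/
def c123 : Em (t3 A B C) (t4 A B C D) := ⟨inl, fun _ => rfl⟩

/-- Factors one, three, four of four. -/
def c134 : Em (t3 A C D) (t4 A B C D) :=
  ⟨(e13 Unit).sumMap (Embedding.refl Unit), by rintro ((t | t) | t) <;> rfl⟩

/-- Factors two, three, four of four. -/
def c234 : Em (t3 B C D) (t4 A B C D) :=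
  ⟨(e23 Unit).sumMap (Embedding.refl Unit), by rintro ((t | t) | t) <;> rfl⟩

/-- Factors one, two, four of four. -/
def c124 : Em (t3 A B D) (t4 A B C D) :=
  ⟨(e12 Unit).sumMap (Embedding.refl Unit), by rintro ((t | t) | t) <;> rfl⟩

end Em

variable [IsAlgClosed k] (O : SV k P) (A B C D : SV k P)

/-- The product of two varieties. -/
noncomputable def m2 : Md O (t2 A B) := (Md.o O A).prod (Md.o O B)

/-- The product of three varieties. -/
noncomputable def m3 : Md O (t3 A B C) := (m2 O A B).prod (Md.o O C)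

/-- The product of four varieties. -/
noncomputable def m4 : Md O (t4 A B C D) := (m3 O A B C).prod (Md.o O D)

namespace Th2

open Em

variable {O A B C D} (E : Th2.{u, w} O)

/-- Composition of correspondences. -/
noncomputable def cmp (β : E.E (m2 O B C)) (α : E.E (m2 O A B)) : E.E (m2 O A C) :=
  E.ps _ (m3 O A B C) (b13 A B C) (E.pl _ _ (b12 A B C) α * E.pl _ _ (b23 A B C) β)

/-- Action of a correspondence. -/
noncomputable def act (α : E.E (m2 O A B)) (z : E.E (Md.o O A)) : E.E (Md.o O B) :=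
  E.ps _ (m2 O A B) (a2 A B) (α * E.pl _ _ (a1 A B) z)

/-- The triple composition. -/
noncomputable def cmp3 (γ : E.E (m2 O C D)) (β : E.E (m2 O B C)) (α : E.E (m2 O A B)) :
    E.E (m2 O A D) :=
  E.ps _ (m4 O A B C D) (c14 A B C D)
    (E.pl _ _ (c12 A B C D) α * E.pl _ _ (c23 A B C D) β * E.pl _ _ (c34 A B C D) γ)

theorem cmp3_l (γ : E.E (m2 O C D)) (β : E.E (m2 O B C)) (α : E.E (m2 O A B)) :
    E.cmp γ (E.cmp β α) = E.cmp3 γ β α := by
  rw [cmp, cmp, E.bc _ _ _ (m4 O A B C D) (b13 A B C) (b12 A C D) (c123 A B C D) (c134 A B C D)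
      (fun _ => rfl) ?_ ?_, ← E.proj_r,
    E.ps_ps _ _ _ (c14 A B C D) (by rintro (t | t) <;> rfl), RingHom.map_mul,
    E.pl_pl _ _ _ (c12 A B C D) fun _ => rfl, E.pl_pl _ _ _ (c23 A B C D) fun _ => rfl,
    E.pl_pl _ _ _ (c34 A B C D) (by rintro (t | t) <;> rfl)]
  · rfl
  · rintro (u | t)
    · exact Or.inl ⟨u, rfl⟩
    · exact Or.inr ⟨Sum.inr t, rfl⟩
  · rintro a (b | b) e
    · exact ⟨b, rfl⟩
    · exact (Sum.inl_ne_inr e).elim

theorem cmp3_r (γ : E.E (m2 O C D)) (β : E.E (m2 O B C)) (α : E.E (m2 O A B)) :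
    E.cmp (E.cmp γ β) α = E.cmp3 γ β α := by
  rw [cmp, cmp, E.bc _ _ _ (m4 O A B C D) (b13 B C D) (b23 A B D) (c234 A B C D) (c124 A B C D)
      (by rintro (t | t) <;> rfl) ?_ ?_, ← E.proj_l,
    E.ps_ps _ _ _ (c14 A B C D) (by rintro (t | t) <;> rfl), RingHom.map_mul,
    E.pl_pl _ _ _ (c12 A B C D) (by rintro (t | t) <;> rfl),
    E.pl_pl _ _ _ (c23 A B C D) (by rintro (t | t) <;> rfl),
    E.pl_pl _ _ _ (c34 A B C D) (by rintro (t | t) <;> rfl), ← mul_assoc]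
  · rfl
  · rintro ((u | t) | t)
    · exact Or.inr ⟨Sum.inl u, rfl⟩
    · exact Or.inl ⟨Sum.inl (Sum.inr t), rfl⟩
    · exact Or.inr ⟨Sum.inr t, rfl⟩
  · rintro ((a | a) | a) ((b | b) | b) e <;> first
      | exact ⟨Sum.inl b, rfl⟩ | exact ⟨Sum.inr b, rfl⟩ | cases e

theorem cmp_assoc (γ : E.E (m2 O C D)) (β : E.E (m2 O B C)) (α : E.E (m2 O A B)) :
    E.cmp (E.cmp γ β) α = E.cmp γ (E.cmp β α) := by
  rw [cmp3_l, cmp3_r]

theorem act_cmp (β : E.E (m2 O B C)) (α : E.E (m2 O A B))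
    (h : Commute (E.pl _ (m3 O A B C) (b12 A B C) α) (E.pl _ _ (b23 A B C) β))
    (x : E.E (Md.o O A)) : E.act (E.cmp β α) x = E.act β (E.act α x) := by
  rw [act, cmp, act, act, E.bc _ _ _ (m3 O A B C) (a2 A B) (a1 B C) (b12 A B C) (b23 A B C)
      (fun _ => rfl) ?_ ?_, ← E.proj_r, ← E.proj_l,
    E.ps_ps _ _ _ (f := a2 A C) (g := b13 A B C) (b3 A B C) fun _ => rfl,
    E.ps_ps _ _ _ (f := a2 B C) (g := b23 A B C) (b3 A B C) fun _ => rfl, h.eq, RingHom.map_mul,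
    mul_assoc, E.pl_pl _ _ _ (f := a1 A C) (g := b13 A B C) (b1 A B C) fun _ => rfl,
    E.pl_pl _ _ _ (f := a1 A B) (g := b12 A B C) (b1 A B C) fun _ => rfl]
  · rintro (u | t)
    · exact Or.inl ⟨u, rfl⟩
    · exact Or.inr ⟨Sum.inr t, rfl⟩
  · rintro a (b | b) e
    · exact ⟨b, rfl⟩
    · exact (Sum.inl_ne_inr e).elim

end Th2

end Pool.Agent.Work.MP_10f4af_ag
end

-- merged part: Pool.Agent.Work.MP_10f4af_ag.MC.T1
section
/-! # Chow rings and cohomology of products of several varieties -/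

open Function Function.Embedding

namespace Pool.Agent.Work.MP_10f4af_ag

open MP_ffcd14_ag hiding len vl cyc pl Weil idl_hmg mem_idl idl_prime idl_le_iff

universe u v w

variable {k : Type u} [Field k] [IsAlgClosed k] {P : Amb} {O : SV k P} {T T' T'' : Type}
  {τ : T → SV k P} {τ' : T' → SV k P} {τ'' : T'' → SV k P}
  (M : Md O τ) (M' : Md O τ') (M'' : Md O τ'')

/-- Composition of embeddings. -/
def Em.trans (f : Em τ τ') (g : Em τ' τ'') : Em τ τ'' :=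
  ⟨f.f.trans g.f, fun t => (g.h _).trans (f.h t)⟩

/-- The embedding of the complement. -/
def Em.co (f : Em τ τ') : Em (fun t : {t // t ∉ Set.range f.f} => τ' t.1) τ' :=
  ⟨Embedding.subtype _, fun _ => rfl⟩

namespace Md

/-- Pull-back. -/
noncomputable def pull (f : Em τ τ') : CR M.Z →ₐ[ℚ] CR M'.Z :=
  AlgHom.ofLinearMap
    { toFun x := CR.mk (pl M.Z M'.Z (M.crd M' f.f).ε (CR.val _ x)) ((M.pd_co M' f).pl_TC x.mem)
      map_add' x y := CR.ext ((M.pd_co M' f).pl_add x.mem y.mem)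
      map_smul' q x := CR.ext ((M.pd_co M' f).pl_smul q x.mem) }
    (CR.ext (M.pd_co M' f).pl_one) fun x y => CR.ext ((M.pd_co M' f).pl_mul x.mem y.mem)

/-- Push-forward. -/
noncomputable def push (f : Em τ τ') : CR M'.Z →ₗ[ℚ] CR M.Z where
  toFun x := CR.mk (ps M.Z M'.Z (M.crd M' f.f).ε (CR.val _ x)) ((M.pd_co M' f).ps_TC x.mem)
  map_add' _ _ := CR.ext ((M.pd_co M' f).ps_add _ _)
  map_smul' q _ := CR.ext ((M.pd_co M' f).ps_smul q _)

theorem val_pull (f : Em τ τ') (x : CR M.Z) :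
    CR.val _ (M.pull M' f x) = pl M.Z M'.Z (M.crd M' f.f).ε (CR.val _ x) := rfl

theorem val_push (f : Em τ τ') (x : CR M'.Z) :
    CR.val _ (M.push M' f x) = ps M.Z M'.Z (M.crd M' f.f).ε (CR.val _ x) := rfl

theorem pull_gr (f : Em τ τ') {i : ℕ} {x : CR M.Z} (h : x ∈ CR.gr _ i) :
    M.pull M' f x ∈ CR.gr _ i := (M.pd_co M' f).pl_CH h

theorem push_gr (f : Em τ τ') {i j : ℕ} (e : j + M.Z.dim = i + M'.Z.dim) {x : CR M'.Z}
    (h : x ∈ CR.gr _ j) : M.push M' f x ∈ CR.gr _ i := by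
  have h1 := (M.pd_co M' f).dim
  refine (M.pd_co M' f).ps_CH ?_
  rwa [show i + (M'.co f.f).Z.dim = j by omega]

omit [IsAlgClosed k] in
theorem stab {σ : k ≃+* k} (h : ∀ t, Stab σ (τ t).pts) : Stab σ M.Z.pts := by
  intro z
  rw [M.mem, M.mem]
  exact forall_congr' fun t => by rw [pt_pr, h]

theorem gal_pull {σ : k ≃+* k} (h : Stab σ M.Z.pts) (h' : ∀ t, Stab σ (τ' t).pts) (f : Em τ τ')
    (x : CR M.Z) : CR.gal (M'.stab h') (M.pull M' f x) = M.pull M' f (CR.gal h x) :=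
  CR.ext (tC_pl (M.pd_co M' f) h ((M'.co f.f).stab fun _ => h' _) (M'.stab h') x.mem)

theorem gal_push {σ : k ≃+* k} (h : Stab σ M.Z.pts) (h' : Stab σ M'.Z.pts) (f : Em τ τ')
    (x : CR M'.Z) : CR.gal h (M.push M' f x) = M.push M' f (CR.gal h' x) :=
  CR.ext (tC_ps (M.pd_co M' f) h h' _)

end Md

/-- Chow rings as a theory. -/
noncomputable def CT2 (O : SV k P) : Th2.{u, u} O where
  E M := CR M.Z
  pl M M' f := M.pull M' f
  ps M M' f := M.push M' f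
  pl_pl M M' M'' f g h e x := CR.ext ((M.pd_co M' f).pl_pl (M'.pd_co M'' g) (M.pd_co M'' h)
    (M.crd_comp M' M'' e) x.mem)
  ps_ps M M' M'' f g h e x := CR.ext ((M.pd_co M' f).ps_ps (M'.pd_co M'' g) (M.pd_co M'' h)
    (M.crd_comp M' M'' e) x.mem)
  proj_l M M' f x z := CR.ext ((M.pd_co M' f).ps_mul x.mem z.mem)
  proj_r M M' f x z := by
    rw [mul_comm (G := CR M'.Z), mul_comm (G := CR M.Z)]
    exact CR.ext ((M.pd_co M' f).ps_mul x.mem z.mem)
  bc M₀ M₁ M₂ M₃ f₁ f₂ g₁ g₂ h1 h2 h3 x := CR.ext ((M₀.pd_co M₂ f₂).pl_ps (M₀.pd_co M₁ f₁)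
    (M₁.pd (M₂.co f₂.f) M₃ (Mod.T2_bij h1 h2 h3) g₁.h fun t => g₂.h t.1) (M₂.pd_co M₃ g₂)
    ((M₀.crd_comp M₂ M₃ fun _ => rfl).trans (M₀.crd_comp M₁ M₃ h1).symm)
    ((M₂.co f₂.f).crd_comp M₂ M₃ fun _ => rfl) x.mem)

namespace Weil

variable {K : Type v} [Field K] (W : Weil.{u, v, w} k K)

/-- Pull-back. -/
noncomputable def upB (f : Em τ τ') : W.H M.Z →ₐ[K] W.H M'.Z :=
  (W.fn.up_hom _ _ _ (M.isPr M' f)).choose

theorem upB_apply (f : Em τ τ') (x : W.H M.Z) :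
    W.upB M M' f x = W.up M.Z M'.Z (M.crd M' f.f).ε x :=
  congrFun (W.fn.up_hom _ _ _ (M.isPr M' f)).choose_spec x

theorem adjB' (f : Em τ τ') (x : W.H M.Z) (z : W.H M'.Z) :
    W.trL M.Z (x * W.dn M.Z M'.Z (M.crd M' f.f).ε z) = W.trL M'.Z (W.upB M M' f x * z) := by
  rw [upB_apply]
  exact W.fn.adj _ _ _ (M.isPr M' f) x z

theorem dnB_linear (f : Em τ τ') : IsLinearMap K (W.dn M.Z M'.Z (M.crd M' f.f).ε) := by
  refine ⟨fun z z' => ext_r fun y => ?_, fun c z => ext_r fun y => ?_⟩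
  · rw [mul_add, map_add, adjB', adjB', adjB', mul_add, map_add]
  · rw [mul_smul_comm, map_smul, adjB', adjB', mul_smul_comm, map_smul]

/-- Push-forward. -/
noncomputable def dnB (f : Em τ τ') : W.H M'.Z →ₗ[K] W.H M.Z := (W.dnB_linear M M' f).mk' _

theorem dnB_apply (f : Em τ τ') (z : W.H M'.Z) :
    W.dnB M M' f z = W.dn M.Z M'.Z (M.crd M' f.f).ε z := rfl

theorem adjB (f : Em τ τ') (x : W.H M.Z) (z : W.H M'.Z) :
    W.trL M.Z (x * W.dnB M M' f z) = W.trL M'.Z (W.upB M M' f x * z) := W.adjB' M M' f x z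

theorem upB_gr (f : Em τ τ') {i : ℕ} {x : W.H M.Z} (h : x ∈ W.gr M.Z i) :
    W.upB M M' f x ∈ W.gr M'.Z i := by
  rw [upB_apply]
  exact mem_gr.2 (W.fn.up_dg _ _ _ (M.isPr M' f) i x (mem_gr.1 h))

theorem upB_upB {f : Em τ τ'} {g : Em τ' τ''} (h : Em τ τ'') (e : ∀ t, g.f (f.f t) = h.f t)
    (x : W.H M.Z) : W.upB M' M'' g (W.upB M M' f x) = W.upB M M'' h x := by
  rw [upB_apply, upB_apply, upB_apply, ← M.crd_comp M' M'' e]
  exact (W.fn.up_up _ _ _ _ _ (M.isPr M' f) (M'.isPr M'' g) x).symm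

theorem dnB_dnB {f : Em τ τ'} {g : Em τ' τ''} (h : Em τ τ'') (e : ∀ t, g.f (f.f t) = h.f t)
    (x : W.H M''.Z) : W.dnB M M' f (W.dnB M' M'' g x) = W.dnB M M'' h x := by
  refine ext_r fun y => ?_
  rw [adjB, adjB, adjB, W.upB_upB M M' M'' h e]

theorem dnB_up_mul (f : Em τ τ') (x : W.H M.Z) (z : W.H M'.Z) :
    W.dnB M M' f (W.upB M M' f x * z) = x * W.dnB M M' f z := by
  refine ext_r fun y => ?_
  rw [adjB, ← mul_assoc, ← mul_assoc, adjB, map_mul (W.upB M M' f)]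

theorem dnB_up_mul' (f : Em τ τ') (x : W.H M.Z) (z : W.H M'.Z) :
    W.dnB M M' f (z * W.upB M M' f x) = W.dnB M M' f z * x := by
  induction x using ind with
  | h1 i x hx =>
    refine ext_r fun y => ?_
    rw [adjB, ← mul_assoc, ← mul_assoc, tr_comm (W.upB_gr M M' f hx), tr_comm hx, ← mul_assoc,
      ← mul_assoc, adjB, map_mul (W.upB M M' f)]
  | h2 x y hx hy => rw [map_add, mul_add, map_add, hx, hy, mul_add]

theorem kunB_span {f : Em τ τ''} {g : Em τ' τ''} (h : Bijective (Sum.elim f.f g.f)) :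
    Submodule.span K {z | ∃ x y, z = W.upB M M'' f x * W.upB M' M'' g y} = ⊤ := by
  simp only [upB_apply]
  exact (W.fn.kun _ _ _ _ _ (M.pd M' M'' h f.h g.h).isProd).1

theorem kunB_tr {f : Em τ τ''} {g : Em τ' τ''} (h : Bijective (Sum.elim f.f g.f)) (x : W.H M.Z)
    (y : W.H M'.Z) :
    W.trL M''.Z (W.upB M M'' f x * W.upB M' M'' g y) = W.trL M.Z x * W.trL M'.Z y := by
  rw [upB_apply, upB_apply]
  exact (W.fn.kun _ _ _ _ _ (M.pd M' M'' h f.h g.h).isProd).2 x y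

theorem bcB {T₀ T₁ T₂ T₃ : Type} {τ₀ : T₀ → SV k P} {τ₁ : T₁ → SV k P} {τ₂ : T₂ → SV k P}
    {τ₃ : T₃ → SV k P} (M₀ : Md O τ₀) (M₁ : Md O τ₁) (M₂ : Md O τ₂) (M₃ : Md O τ₃)
    (f₁ : Em τ₀ τ₁) (f₂ : Em τ₀ τ₂) (g₁ : Em τ₁ τ₃) (g₂ : Em τ₂ τ₃)
    (h1 : ∀ t, g₁.f (f₁.f t) = g₂.f (f₂.f t))
    (h2 : ∀ u, u ∈ Set.range g₁.f ∨ u ∈ Set.range g₂.f)
    (h3 : ∀ a b, g₁.f a = g₂.f b → b ∈ Set.range f₂.f) (x : W.H M₁.Z) :
    W.upB M₀ M₂ f₂ (W.dnB M₀ M₁ f₁ x) = W.dnB M₂ M₃ g₂ (W.upB M₁ M₃ g₁ x) := by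
  have b2 : Bijective (Sum.elim f₂.co.f f₂.f) := G1_swap (Mod.T0_compl f₂.f.injective)
  have b3 : Bijective (Sum.elim (f₂.co.trans g₂).f g₁.f) := G1_swap (Mod.T2_bij h1 h2 h3)
  refine ext_r fun y => ?_
  have hy : y ∈ Submodule.span K {z | ∃ c a, z = W.upB (M₂.co f₂.f) M₂ f₂.co c *
      W.upB M₀ M₂ f₂ a} := by
    rw [W.kunB_span _ _ _ b2]
    trivial
  induction hy using Submodule.span_induction with
  | mem y hy =>
    obtain ⟨c, a, rfl⟩ := hy
    rw [mul_assoc, ← map_mul, W.kunB_tr _ _ _ b2, adjB, adjB, map_mul (W.upB M₂ M₃ g₂),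
      W.upB_upB _ _ _ (f₂.co.trans g₂) fun _ => rfl,
      W.upB_upB M₀ M₂ M₃ (f₁.trans g₁) fun t => (h1 t).symm,
      ← W.upB_upB M₀ M₁ M₃ (f := f₁) (g := g₁) (f₁.trans g₁) fun _ => rfl, mul_assoc, ← map_mul,
      W.kunB_tr _ _ _ b3]
  | zero => rw [zero_mul, zero_mul]
  | add y z _ _ hy hz => rw [add_mul, add_mul, map_add, map_add, hy, hz]
  | smul c y _ hy => rw [smul_mul_assoc, smul_mul_assoc, map_smul, map_smul, hy]

/-- Cohomology as a theory. -/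
noncomputable def HT2 (O : SV k P) : Th2.{u, w} O where
  E M := W.H M.Z
  pl M M' f := W.upB M M' f
  ps M M' f := W.dnB M M' f
  pl_pl M M' M'' _ _ h e x := W.upB_upB M M' M'' h e x
  ps_ps M M' M'' _ _ h e x := W.dnB_dnB M M' M'' h e x
  proj_l M M' f x z := W.dnB_up_mul M M' f x z
  proj_r M M' f x z := W.dnB_up_mul' M M' f x z
  bc := W.bcB

theorem clB_pull (f : Em τ τ') (x : CR M.Z) :
    W.clR _ (M.pull M' f x) = W.upB M M' f (W.clR _ x) := by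
  induction x using CR.ind with
  | h1 i x hx =>
    rw [upB_apply, clR_apply, clR_apply, Md.val_pull]
    exact W.cy.cl_pl _ _ _ (M.isPr M' f) i _ hx
  | h2 x x' h h' => simp only [map_add, h, h']

theorem clB_push (f : Em τ τ') (x : CR M'.Z) :
    W.clR _ (M.push M' f x) = W.dnB M M' f (W.clR _ x) := by
  induction x using CR.ind with
  | h1 i x hx =>
    rw [dnB_apply, clR_apply, clR_apply, Md.val_push]
    exact W.cy.cl_ps _ _ _ (M.isPr M' f) i _ hx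
  | h2 x x' h h' => simp only [map_add, h, h']

end Weil

end Pool.Agent.Work.MP_10f4af_ag
end

-- merged part: Pool.Agent.Work.MP_10f4af_ag.MC.R
section
/-!
# Correspondences between different varieties, and restriction to a subvariety

For `X ⊆ Y` the restriction of a class `β` from `Y × Y` to `X × X` is the composition of `β` with
the graph of the inclusion and its transpose.  If `V` meets `X × X` properly, the restriction of
the class of `V` is a positive combination of the components of the intersection (`val_rs`).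
-/

open Function Function.Embedding

namespace Pool.Agent.Work.MP_10f4af_ag

open MP_ffcd14_ag hiding len vl cyc pl Weil idl_hmg mem_idl idl_prime idl_le_iff

universe u v w

variable {k : Type u} [Field k] [IsAlgClosed k] {P Q S : Amb}

theorem pos_push {X Y : SV k Q} {Z : SV k S} {β γ : Crd k Q S} (H : Pd Y X Z β γ) {Ω : Sub k S}
    (hΩ : (Ω : Set (S.Pt k)) ⊆ Z.pts) (j : Crd k S Q) (e : j.ε ∘ γ.ε = id)
    (h1 : ∀ z ∈ Ω, j.pr (γ.pr z) = z) (h2 : ∀ z ∈ Ω, β.pr z = γ.pr z)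
    (h3 : ∀ x ∈ X.pts, j.pr x ∈ Ω) (h4 : sdim Ω = X.dim) {V : Sub k Q}
    (hV : (V : Set (Q.Pt k)) ⊆ Y.pts) {d : ℕ} (hd : d + Y.dim = sdim V + X.dim)
    (hp : ∀ T ≤ V, (T : Set (Q.Pt k)) ⊆ X.pts → sdim T ≤ d) :
    ∃ c ∈ Sp fun T : Sub k Q => T ≤ V ∧ (T : Set (Q.Pt k)) ⊆ X.pts ∧ sdim T = d,
      (∀ p, 0 ≤ c p) ∧ (∀ T ≤ V, (T : Set (Q.Pt k)) ⊆ X.pts → sdim T = d →
        c (idl (T : Set (Q.Pt k))) ≠ 0) ∧
      ps X Z γ.ε (mul Z (cyc Z Ω) (pl Y Z β.ε (cyc Y V))) = (Rt X.pts).mkQ c := by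
  have hW := H.xp_sub hV (W := X.tp) subset_rfl
  have a1 : ∀ U ≤ Ω, U ≤ H.bij.xp V X.tp → γ.img U ≤ V ∧ (γ.img U : Set (Q.Pt k)) ⊆ X.pts ∧
      sdim (γ.img U) = sdim U := fun U u1 u2 =>
    ⟨I1_le fun z hz => h2 z (u1 hz) ▸ (H.bij.mem_xp.1 (u2 hz)).1,
      H.symm.img_sub (Set.Subset.trans u1 hΩ), I2_sec γ j fun z hz => h1 z (u1 hz)⟩
  have a2 : d + Z.dim = sdim Ω + sdim (H.bij.xp V X.tp) := by
    rw [H.dim, H.bij.sdim_xp, X.sdim_tp, h4]
    omega
  have a3 : Pp Z.dim Ω (H.bij.xp V X.tp) := fun U u1 u2 => by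
    obtain ⟨b1, b2, b3⟩ := a1 U u1 u2
    have := hp _ b1 b2
    omega
  refine ⟨push γ.ε (ip Z.dim (cS Ω) (cS (H.bij.xp V X.tp))),
    Sp_mono ?_ (push_mem H.symm.bij.inj (ip_mem Z hΩ hW)), push_nonneg (ip_nonneg _ _ _),
    fun T t1 t2 t3 => ?_, ?_⟩
  · rintro _ ⟨U, ⟨u1, u2, u3⟩, rfl, u4⟩
    obtain ⟨b1, b2, b3⟩ := a1 U u1 u2
    exact ⟨b1, b2, by omega⟩
  · have b1 : ∀ x, γ.pr (j.pr x) = x := pr_comp (ν := Crd.refl k Q) e
    have b2 : j.img T ≤ Ω := I1_le fun x hx => h3 x (t2 hx)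
    have b3 : j.img T ≤ H.bij.xp V X.tp := I1_le fun x hx => H.bij.mem_xp.2
      ⟨by rw [h2 _ (h3 x (t2 hx)), b1]; exact t1 hx, by rw [b1]; exact t2 hx⟩
    have b4 := (a1 _ b2 b3).2.2
    rw [I2_img j e] at b4
    have b5 := ip_pos Z hΩ hW a3 b2 b3 (by omega)
    have b6 := ip_nonneg Z.dim Ω (H.bij.xp V X.tp)
    generalize ip Z.dim (cS Ω) (cS (H.bij.xp V X.tp)) = a at b5 b6
    have b7 := push_nonneg (β := γ) (a := a.erase (idl (j.img T : Set (S.Pt k)))) (fun p => by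
      classical
      rw [Finsupp.erase_apply]
      split_ifs
      exacts [le_rfl, b6 p]) (idl (T : Set (Q.Pt k)))
    rw [← Finsupp.erase_add_single (idl (j.img T : Set (S.Pt k))) a, map_add,
      ← Finsupp.smul_single_one, map_smul, ← cS, push_sec H.symm.bij.inj j (I2_fix j e T),
      I2_img j e, Finsupp.add_apply, Finsupp.smul_apply, cS_self, smul_eq_mul, mul_one]
    exact (add_pos_of_nonneg_of_pos b7 b5).ne'
  · rw [H.pl_cyc hV, cyc_eq, cyc_eq, mul_mk Z (cS_mem hΩ) (cS_mem hW) (F1_cS a3), H.symm.ps_mk]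

open Em

variable (O : SV k P) {A B C D : SV k P}

/-- Pull-back from the first two factors. -/
noncomputable def q12 (A B C : SV k P) : CR (A.prod B) →ₐ[ℚ] CR ((A.prod B).prod C) :=
  (m2 O A B).pull (m3 O A B C) (b12 A B C)

/-- Pull-back from the last two factors. -/
noncomputable def q23 (A B C : SV k P) : CR (B.prod C) →ₐ[ℚ] CR ((A.prod B).prod C) :=
  (m2 O B C).pull (m3 O A B C) (b23 A B C)

/-- Push-forward to the outer factors. -/
noncomputable def s13 (A B C : SV k P) : CR ((A.prod B).prod C) →ₗ[ℚ] CR (A.prod C) :=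
  (m2 O A C).push (m3 O A B C) (b13 A B C)

/-- Composition of correspondences. -/
noncomputable def cp : CR (B.prod C) →ₗ[ℚ] CR (A.prod B) →ₗ[ℚ] CR (A.prod C) :=
  ((LinearMap.mul ℚ (CR ((A.prod B).prod C))).flip.compl₁₂ (q23 O A B C).toLinearMap
    (q12 O A B C).toLinearMap).compr₂ (s13 O A B C)

theorem cp_apply (β : CR (B.prod C)) (α : CR (A.prod B)) :
    cp O β α = s13 O A B C (q12 O A B C α * q23 O A B C β) := rfl

theorem cp_eq (β : CR (B.prod C)) (α : CR (A.prod B)) :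
    cp O β α = (CT2 O).cmp (A := A) (B := B) (C := C) β α := rfl

theorem cp_assoc (γ : CR (C.prod D)) (β : CR (B.prod C)) (α : CR (A.prod B)) :
    cp O (cp O γ β) α = cp O γ (cp O β α) :=
  (CT2 O).cmp_assoc (A := A) (B := B) (C := C) (D := D) γ β α

theorem val_q12 (α : CR (A.prod B)) : CR.val _ (q12 O A B C α) =
    pl (A.prod B) ((A.prod B).prod C) vl (CR.val _ α) :=
  congrArg (fun e => pl (A.prod B) ((A.prod B).prod C) e (CR.val _ α)) (Mod.one O).crd12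

theorem val_q23 (α : CR (B.prod C)) : CR.val _ (q23 O A B C α) =
    pl (B.prod C) ((A.prod B).prod C) (vp (vl ∘ vr) vr) (CR.val _ α) :=
  congrArg (fun e => pl (B.prod C) ((A.prod B).prod C) e (CR.val _ α)) (Mod.one O).crd23

theorem val_s13 (α : CR ((A.prod B).prod C)) : CR.val _ (s13 O A B C α) =
    ps (A.prod C) ((A.prod B).prod C) (vp (vl ∘ vl) vr) (CR.val _ α) :=
  congrArg (fun e => ps (A.prod C) ((A.prod B).prod C) e (CR.val _ α)) (Mod.one O).crd13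

theorem val_cp (β α : CR (A.prod A)) :
    CR.val _ (cp O β α) = comp A (CR.val _ β) (CR.val _ α) := by
  rw [cp_apply, val_s13, CR.val_mul, val_q12, val_q23, comp]

theorem cp_gr {i j l : ℕ} (e : j + i = l + B.dim) {β : CR (B.prod C)} {α : CR (A.prod B)}
    (hβ : β ∈ CR.gr _ i) (hα : α ∈ CR.gr _ j) : cp O β α ∈ CR.gr _ l := by
  have h1 : q12 O A B C α ∈ CR.gr _ j := (m2 O A B).pull_gr (m3 O A B C) (b12 A B C) hα
  have h2 : q23 O A B C β ∈ CR.gr _ i := (m2 O B C).pull_gr (m3 O A B C) (b23 A B C) hβ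
  have h3 : j + i + (A.prod C).dim = l + ((A.prod B).prod C).dim := by
    simp only [prod_dim]
    omega
  exact (m2 O A C).push_gr (m3 O A B C) (b13 A B C) h3 (CR.mul_gr h1 h2)

theorem stab_prod {A : SV k P} {B : SV k Q} {σ : k ≃+* k} (hA : Stab σ A.pts)
    (hB : Stab σ B.pts) : Stab σ (A.prod B).pts := fun z => by
  rw [mem_prod, mem_prod, pt_pr, pt_pr, hA, hB]

theorem gal_cp {σ : k ≃+* k} (hA : Stab σ A.pts) (hB : Stab σ B.pts) (hC : Stab σ C.pts)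
    (β : CR (B.prod C)) (α : CR (A.prod B)) : CR.gal (stab_prod hA hC) (cp O β α) =
      cp O (CR.gal (stab_prod hB hC) β) (CR.gal (stab_prod hA hB) α) := by
  have h : ∀ t, Stab σ (t3 A B C t).pts := by rintro ((t | t) | t); exacts [hA, hB, hC]
  have h0 := stab_prod (stab_prod hA hB) hC
  have h1 : CR.gal h0 (q12 O A B C α) = q12 O A B C (CR.gal (stab_prod hA hB) α) :=
    (m2 O A B).gal_pull (m3 O A B C) (stab_prod hA hB) h (b12 A B C) α
  have h2 : CR.gal h0 (q23 O A B C β) = q23 O A B C (CR.gal (stab_prod hB hC) β) :=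
    (m2 O B C).gal_pull (m3 O A B C) (stab_prod hB hC) h (b23 A B C) β
  have h3 : ∀ x, CR.gal (stab_prod hA hC) (s13 O A B C x) = s13 O A B C (CR.gal h0 x) :=
    (m2 O A C).gal_push (m3 O A B C) (stab_prod hA hC) h0 (b13 A B C)
  rw [cp_apply, cp_apply, h3, map_mul, h1, h2]

/-- The diagonal of `X`. -/
noncomputable def dsub (X : SV k P) : Sub k (P.sum P) := (Crd.diag k P).img X.tp

theorem mem_dsub {X : SV k P} {z : (P.sum P).Pt k} :
    z ∈ dsub X ↔ snd z ∈ X.pts ∧ fst z = snd z := by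
  refine ⟨fun hz => ?_, fun hz => (Crd.mem_img_iff _).2 ⟨snd z, hz.1, bij_sum.ext hz.2.symm rfl⟩⟩
  obtain ⟨x, hx, rfl⟩ := (Crd.mem_img_iff _).1 hz
  exact ⟨hx, rfl⟩

theorem sdim_dsub (X : SV k P) : sdim (dsub X) = X.dim :=
  (sdim_img_of_inj (Crd.diag k P) fun _ _ _ _ e => congrArg (Crd.inl k P P).pr e).trans X.sdim_tp

variable {X Y : SV k P}

theorem dsub_sub (hA : X.pts ⊆ A.pts) (hB : X.pts ⊆ B.pts) :
    (dsub X : Set ((P.sum P).Pt k)) ⊆ (A.prod B).pts := fun _ hz =>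
  have h := mem_dsub.1 hz
  mem_prod.2 ⟨hA (h.2 ▸ h.1 : fst _ ∈ X.pts), hB h.1⟩

/-- The class of the diagonal of `X` in `A × B`. -/
noncomputable def gph (hA : X.pts ⊆ A.pts) (hB : X.pts ⊆ B.pts) : CR (A.prod B) :=
  CR.mk _ (G1_TC (dsub_sub hA hB))

theorem gph_gr (hA : X.pts ⊆ A.pts) (hB : X.pts ⊆ B.pts) {i : ℕ} (e : X.dim + i = A.dim + B.dim) :
    gph hA hB ∈ CR.gr _ i :=
  cyc_mem _ (dsub_sub hA hB) (by rw [sdim_dsub, prod_dim, e])

theorem gal_gph (hA : X.pts ⊆ A.pts) (hB : X.pts ⊆ B.pts) {σ : k ≃+* k} (h : Stab σ X.pts)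
    (h' : Stab σ (A.prod B).pts) : CR.gal h' (gph hA hB) = gph hA hB := by
  have e : sg σ (dsub X) = dsub X := by
    ext z
    obtain ⟨y, rfl⟩ : ∃ y, pt σ y = z := ⟨_, D0_pt σ z⟩
    rw [SetLike.mem_coe, SetLike.mem_coe, mem_sg, mem_dsub, mem_dsub, snd_eq (pt σ y),
      fst_eq (pt σ y), pt_pr, pt_pr, h, (D0_inj σ).eq_iff]
    rfl
  exact CR.ext ((tC_cyc h' _).trans (by rw [e]; rfl))

/-- The restriction to `X × X`. -/
noncomputable def rs (h : X.pts ⊆ Y.pts) : CR (Y.prod Y) →ₗ[ℚ] CR (X.prod X) :=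
  cp X (gph h subset_rfl) ∘ₗ (cp X).flip (gph subset_rfl h)

theorem rs_apply (h : X.pts ⊆ Y.pts) (β : CR (Y.prod Y)) :
    rs h β = cp X (gph h subset_rfl) (cp X β (gph subset_rfl h)) := rfl

/-- A projection from four factors to two. -/
noncomputable def c4 (f : Unit ⊕ Unit → ((Unit ⊕ Unit) ⊕ Unit) ⊕ Unit) :
    Crd k (P.sum P) (((P.sum P).sum P).sum P) := (m2 O O O).M.crd (m4 O O O O O).M f

/-- A projection from four factors to one. -/
noncomputable def p4 (t : ((Unit ⊕ Unit) ⊕ Unit) ⊕ Unit) : Crd k P (((P.sum P).sum P).sum P) :=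
  (m4 O O O O O).M.β t

/-- Doubling both points. -/
noncomputable def j4 : Crd k (((P.sum P).sum P).sum P) (P.sum P) :=
  (m4 O O O O O).M.crd (m2 O O O).M
    (Sum.elim (Sum.elim (fun _ => Sum.inl ()) fun _ => Sum.inr ()) fun _ => Sum.inr ())

theorem fst_c4 (f : Unit ⊕ Unit → ((Unit ⊕ Unit) ⊕ Unit) ⊕ Unit) (z) :
    fst ((c4 O f).pr z) = (p4 O (f (Sum.inl ()))).pr z :=
  (m2 O O O).M.crd_pr (m4 O O O O O).M f (Sum.inl ()) z

theorem snd_c4 (f : Unit ⊕ Unit → ((Unit ⊕ Unit) ⊕ Unit) ⊕ Unit) (z) :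
    snd ((c4 O f).pr z) = (p4 O (f (Sum.inr ()))).pr z :=
  (m2 O O O).M.crd_pr (m4 O O O O O).M f (Sum.inr ()) z

theorem j4_l (t : Unit ⊕ Unit) (x) : (p4 O (Sum.inl (Sum.inl t))).pr ((j4 O).pr x) = fst x :=
  (m4 O O O O O).M.crd_pr (m2 O O O).M _ (Sum.inl (Sum.inl t)) x

theorem j4_m (t : Unit) (x) : (p4 O (Sum.inl (Sum.inr t))).pr ((j4 O).pr x) = snd x :=
  (m4 O O O O O).M.crd_pr (m2 O O O).M _ (Sum.inl (Sum.inr t)) x

theorem j4_r (t : Unit) (x) : (p4 O (Sum.inr t)).pr ((j4 O).pr x) = snd x :=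
  (m4 O O O O O).M.crd_pr (m2 O O O).M _ (Sum.inr t) x

theorem ext4 {z z' : (((P.sum P).sum P).sum P).Pt k} (h : ∀ t, (p4 O t).pr z = (p4 O t).pr z') :
    z = z' := (m4 O O O O O).M.pt_ext h

theorem val_cp3 (γ : CR (C.prod D)) (β : CR (B.prod C)) (α : CR (A.prod B)) :
    CR.val _ (cp O γ (cp O β α)) =
      ps (A.prod D) (((A.prod B).prod C).prod D) (c4 O (c14 A B C D).f).ε
        (mul (((A.prod B).prod C).prod D) (mul (((A.prod B).prod C).prod D)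
          (pl (A.prod B) _ (c4 O (c12 A B C D).f).ε (CR.val _ α))
          (pl (C.prod D) _ (c4 O (c34 A B C D).f).ε (CR.val _ γ)))
          (pl (B.prod C) _ (c4 O (c23 A B C D).f).ε (CR.val _ β))) := by
  have h := (CT2 O).cmp3_l (A := A) (B := B) (C := C) (D := D) γ β α
  have h' : cp O γ (cp O β α) = (m2 O A D).push (m4 O A B C D) (c14 A B C D)
      ((m2 O A B).pull (m4 O A B C D) (c12 A B C D) α *
        (m2 O B C).pull (m4 O A B C D) (c23 A B C D) β *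
        (m2 O C D).pull (m4 O A B C D) (c34 A B C D) γ) := h
  rw [mul_right_comm] at h'
  exact congrArg (CR.val (A.prod D)) h'

theorem val_rs (h : X.pts ⊆ Y.pts) {V : Sub k (P.sum P)}
    (hV : (V : Set ((P.sum P).Pt k)) ⊆ (Y.prod Y).pts) (hd : sdim V + X.dim = Y.dim + Y.dim)
    (hp : ∀ T ≤ V, (T : Set ((P.sum P).Pt k)) ⊆ (X.prod X).pts → sdim T ≤ X.dim) :
    ∃ c ∈ Sp fun T : Sub k (P.sum P) =>
        T ≤ V ∧ (T : Set ((P.sum P).Pt k)) ⊆ (X.prod X).pts ∧ sdim T = X.dim,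
      (∀ p, 0 ≤ c p) ∧ (∀ T ≤ V, (T : Set ((P.sum P).Pt k)) ⊆ (X.prod X).pts → sdim T = X.dim →
        c (idl (T : Set ((P.sum P).Pt k))) ≠ 0) ∧
      CR.val _ (rs h (CR.mk _ (G1_TC hV))) = (Rt (X.prod X).pts).mkQ c := by
  have b1 : Bijective (Sum.elim ((inl.trans inl : Unit ⊕ Unit ↪ ((Unit ⊕ Unit) ⊕ Unit) ⊕ Unit))
    (inr.sumMap (Embedding.refl Unit) : Unit ⊕ Unit ↪ ((Unit ⊕ Unit) ⊕ Unit) ⊕ Unit)) := by decide
  have b2 : Bijective (Sum.elim ((e23 Unit).trans inl : Unit ⊕ Unit ↪ ((Unit ⊕ Unit) ⊕ Unit) ⊕ Unit)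
    ((inl.trans inl).sumMap (Embedding.refl Unit) :
      Unit ⊕ Unit ↪ ((Unit ⊕ Unit) ⊕ Unit) ⊕ Unit)) := by decide
  have H1 : Pd (X.prod Y) (Y.prod X) (((X.prod Y).prod Y).prod X) (c4 X (c12 X Y Y X).f)
      (c4 X (c34 X Y Y X).f) :=
    (m2 X X Y).pd (m2 X Y X) (m4 X X Y Y X) b1 (c12 X Y Y X).h (c34 X Y Y X).h
  have H2 : Pd (Y.prod Y) (X.prod X) (((X.prod Y).prod Y).prod X) (c4 X (c23 X Y Y X).f)
      (c4 X (c14 X Y Y X).f) :=
    (m2 X Y Y).pd (m2 X X X) (m4 X X Y Y X) b2 (c23 X Y Y X).h (c14 X Y Y X).h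
  have hΩ : ∀ z, z ∈ H1.bij.xp (dsub X) (dsub X) ↔
      ((p4 X (Sum.inl (Sum.inl (Sum.inr ())))).pr z ∈ X.pts ∧
        (p4 X (Sum.inl (Sum.inl (Sum.inl ())))).pr z =
          (p4 X (Sum.inl (Sum.inl (Sum.inr ())))).pr z) ∧ (p4 X (Sum.inr ())).pr z ∈ X.pts ∧
        (p4 X (Sum.inl (Sum.inr ()))).pr z = (p4 X (Sum.inr ())).pr z := fun z => by
    rw [H1.bij.mem_xp, mem_dsub, mem_dsub, fst_c4, fst_c4, snd_c4, snd_c4]
    rfl
  have e0 : (j4 X).ε ∘ (c4 X (c14 X Y Y X).f).ε = id :=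
    ((m2 X X X).M.crd_comp (m4 X X X X X).M (m2 X X X).M (h := id)
      (by rintro (t | t) <;> rfl)).trans ((m2 X X X).M.crd_id fun _ => rfl)
  obtain ⟨c, c1, c2, c3, c4⟩ := pos_push H2
    (H1.xp_sub (dsub_sub subset_rfl h) (dsub_sub h subset_rfl)) (j4 X) e0
    (fun z hz => ext4 X fun t => by
      obtain ⟨⟨-, e1⟩, -, e2⟩ := (hΩ z).1 hz
      rcases t with ((t | t) | t) | t
      · rw [j4_l, fst_c4]
        rfl
      · rw [j4_l, fst_c4]
        exact e1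
      · rw [j4_m, snd_c4]
        exact e2.symm
      · rw [j4_r, snd_c4]
        rfl)
    (fun z hz => by
      obtain ⟨⟨-, e1⟩, -, e2⟩ := (hΩ z).1 hz
      refine bij_sum.ext ?_ ?_
      · rw [← fst_eq, ← fst_eq, fst_c4, fst_c4]
        exact e1.symm
      · rw [← snd_eq, ← snd_eq, snd_c4, snd_c4]
        exact e2)
    (fun x hx => (hΩ _).2 (by
      rw [j4_l, j4_l, j4_m, j4_r]
      exact ⟨⟨(mem_prod.1 hx).1, rfl⟩, (mem_prod.1 hx).2, rfl⟩))
    (by rw [Bij.sdim_xp, sdim_dsub, prod_dim]) hV (d := X.dim)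
    (by rw [prod_dim, prod_dim]; omega) hp
  refine ⟨c, c1, c2, c3, Eq.trans ?_ c4⟩
  rw [rs_apply, val_cp3, ← H1.mul_pl_pl (dsub_sub subset_rfl h) (dsub_sub h subset_rfl)]
  rfl

end Pool.Agent.Work.MP_10f4af_ag
end

-- merged part: Pool.Agent.Work.MP_10f4af_ag.MC.H
section
/-! # The action of correspondences between different varieties on cohomology -/

open Function Function.Embedding

namespace Pool.Agent.Work.MP_10f4af_ag

open MP_ffcd14_ag hiding len vl cyc pl Weil idl_hmg mem_idl idl_prime idl_le_iff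

universe u v w

variable {k : Type u} [Field k] [IsAlgClosed k] {P : Amb} (O : SV k P) {A B C X Y : SV k P}
  {K : Type v} [Field K] (W : Weil.{u, v, w} k K)

open Em

variable (A) in
/-- The class of a correspondence. -/
noncomputable def un1 : Cor (Mod.one A) ≃ₗ[ℚ] CR (A.prod A) := Cor.un (Mod.one A)

theorem val_un1 (α : Cor (Mod.one A)) : CR.val _ (un1 A α) = Cor.vv (Mod.one A) α := rfl

theorem un1_mul (β α : Cor (Mod.one A)) : un1 A (β * α) = cp O (un1 A β) (un1 A α) :=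
  CR.ext ((Cor.vv_mul (Mod.one A) β α).trans (val_cp O (un1 A β) (un1 A α)).symm)

theorem un1_gr {α : Cor (Mod.one A)} : α ∈ Cor.R0 (Mod.one A) ↔ un1 A α ∈ CR.gr _ A.dim := Iff.rfl

/-- Composition in cohomology. -/
noncomputable def hcp (b : W.H (B.prod C)) (a : W.H (A.prod B)) : W.H (A.prod C) :=
  (W.HT2 O).cmp (A := A) (B := B) (C := C) b a

/-- Action in cohomology. -/
noncomputable def hac (a : W.H (A.prod B)) (x : W.H A) : W.H B :=
  (W.HT2 O).act (A := A) (B := B) a x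

theorem cl_cp (β : CR (B.prod C)) (α : CR (A.prod B)) :
    W.clR _ (cp O β α) = hcp O W (W.clR _ β) (W.clR _ α) := by
  have h1 := W.clB_push (m2 O A C) (m3 O A B C) (b13 A B C)
    ((m2 O A B).pull (m3 O A B C) (b12 A B C) α * (m2 O B C).pull (m3 O A B C) (b23 A B C) β)
  rw [RingHom.map_mul, W.clB_pull, W.clB_pull] at h1
  exact h1

theorem cl_cp_l {β : CR (B.prod C)} (h : W.clR _ β = 0) (α : CR (A.prod B)) :
    W.clR _ (cp O β α) = 0 := by
  rw [cl_cp, h]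
  exact (congrArg ((W.HT2 O).ps (m2 O A C) (m3 O A B C) (b13 A B C))
    ((congrArg (HMul.hMul _) (map_zero _)).trans (mul_zero _))).trans (map_zero _)

theorem cl_cp_r (β : CR (B.prod C)) {α : CR (A.prod B)} (h : W.clR _ α = 0) :
    W.clR _ (cp O β α) = 0 := by
  rw [cl_cp, h]
  exact (congrArg ((W.HT2 O).ps (m2 O A C) (m3 O A B C) (b13 A B C))
    ((congrArg (HMul.hMul · _) (map_zero _)).trans (zero_mul _))).trans (map_zero _)

theorem hac_cp (β : CR (B.prod C)) (α : CR (A.prod B)) (x : W.H A) :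
    hac O W (W.clR _ (cp O β α)) x = hac O W (W.clR _ β) (hac O W (W.clR _ α) x) := by
  have := W.clR_comm ((m2 O A B).pull (m3 O A B C) (b12 A B C) α)
    (W.upB (m2 O B C) (m3 O A B C) (b23 A B C) (W.clR (B.prod C) β))
  rw [W.clB_pull] at this
  rw [cl_cp]
  exact (W.HT2 O).act_cmp (A := A) (B := B) (C := C) (W.clR (B.prod C) β) (W.clR (A.prod B) α)
    this x

theorem hac_eq (a : W.H (A.prod B)) (x : W.H A) :
    hac O W a x = W.dn B (A.prod B) vr (a * W.up A (A.prod B) vl x) := by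
  have h1 : W.upB (Md.o O A) (m2 O A B) (a1 A B) x = W.up A (A.prod B) vl x :=
    (W.upB_apply (Md.o O A) (m2 O A B) (a1 A B) x).trans
      (congrArg (fun e => W.up A (A.prod B) e x) ((Mod.one O).crd_inl (Mod.one O)))
  have h2 : ∀ z : W.H (A.prod B), W.dnB (Md.o O B) (m2 O A B) (a2 A B) z =
      W.dn B (A.prod B) vr z := fun z =>
    congrArg (fun e => W.dn B (A.prod B) e z) ((Mod.one O).crd_inr (Mod.one O))
  rw [← h1, ← h2]
  rfl

theorem hac_rho (α : Cor (Mod.one A)) (x : W.H A) :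
    W.rho (Mod.one A) α x = hac O W (W.clR _ (un1 A α)) x :=
  (W.rho_act (Mod.one A) α x).trans (hac_eq O W (W.clR _ (un1 A α)) x).symm

theorem hac_res (h : X.pts ⊆ Y.pts) (y : W.H Y) :
    hac O W (W.clR _ (gph h subset_rfl)) y = W.res Y X y := by
  rw [hac_eq, Weil.res, ← show (dsub X : Set ((P.sum P).Pt k)) = _ from Set.ext fun _ => mem_dsub]
  rfl

end Pool.Agent.Work.MP_10f4af_ag
end

-- merged part: Pool.Agent.Work.MP_10f4af_ag.MC.F
section
/-!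
# Invariant cycles on the square of a very general complete intersection in `Y`

A subvariety of `Z × Z` of dimension `dim Z` is linked, up to conjugation, to the diagonal, to
products and to restrictions of classes of `Y × Y` (`Dat'.fr`).
-/

open MvPolynomial Function

namespace Pool.Agent.Work.MP_10f4af_ag

open MP_ffcd14_ag hiding len vl cyc pl Weil idl_hmg mem_idl idl_prime idl_le_iff lin

universe u

theorem exists_base' {k : Type u} [Field k] (F : Subfield k) {α : Type} {a : α → k}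
    (ha : AlgebraicIndependent F a) : ∃ k₀ : Subfield k, F ≤ k₀ ∧ AlgebraicIndependent k₀ a ∧
      ∀ c : k, ∃ Q : Polynomial (MvPolynomial α k₀), Q ≠ 0 ∧
        Polynomial.eval₂ (aeval a : MvPolynomial α k₀ →ₐ[k₀] k).toRingHom c Q = 0 := by
  obtain ⟨t, ht, hb⟩ := exists_isTranscendenceBasis_superset (R := F) ha.to_subtype_range
  let K := IntermediateField.adjoin F (t \ Set.range a)
  have h1 : AlgebraicIndependent K a := by
    rw [IntermediateField.algebraicIndependent_adjoin_iff]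
    have := (hb.1.adjoin_of_disjoint (s := {x | x.1 ∉ Set.range a}) (t := {x | x.1 ∈ Set.range a})
      disjoint_compl_left).comp (fun i => ⟨⟨a i, ht ⟨i, rfl⟩⟩, i, rfl⟩)
      fun i j e => ha.injective (congrArg (·.1.1) e)
    rwa [show Subtype.val '' {x : t | x.1 ∉ Set.range a} = t \ Set.range a by
      ext; simp [and_comm]] at this
  have h2 : Algebra.adjoin F (Set.range ((↑) : t → k)) ≤
      (aeval a : MvPolynomial α K →ₐ[K] k).range.restrictScalars F := by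
    refine Algebra.adjoin_le ?_
    rintro _ ⟨x, rfl⟩
    by_cases hx : x.1 ∈ Set.range a
    · obtain ⟨i, hi⟩ := hx
      exact ⟨X i, (aeval_X a i).trans hi⟩
    · exact ⟨C ⟨x.1, IntermediateField.subset_adjoin _ _ ⟨x.2, hx⟩⟩, aeval_C a _⟩
  have h3 : ∀ c : k, ∃ Q : Polynomial (MvPolynomial α K), Q ≠ 0 ∧
      Polynomial.eval₂ (aeval a : MvPolynomial α K →ₐ[K] k).toRingHom c Q = 0 := fun c => by
    obtain ⟨P, h0, hP⟩ := hb.isAlgebraic.isAlgebraic c
    obtain ⟨Q, hQ⟩ := (Polynomial.mem_lifts (f := (aeval a : MvPolynomial α K →ₐ[K] k).toRingHom)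
      (P.map (algebraMap _ k))).1 ((Polynomial.lifts_iff_coeff_lifts _).2 fun n => by
        rw [Polynomial.coeff_map]
        exact h2 (P.coeff n).2)
    refine ⟨Q, fun e => h0 ?_, by rw [← Polynomial.eval_map, hQ, Polynomial.eval_map_algebraMap, hP]⟩
    rw [e, Polynomial.map_zero] at hQ
    exact (Polynomial.map_eq_zero_iff Subtype.val_injective).1 hQ.symm
  exact ⟨K.toSubfield, fun x hx => K.algebraMap_mem ⟨x, hx⟩, h1, h3⟩

variable {k : Type u} [Field k] {P : Amb}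

/-- `Z` is cut out of `Y` by the equations attached to `g`, and `Y` is defined over the
constants. -/
structure Dat' (Y Z : SV k P) (k₀ : Type u) [Field k₀] {r N : ℕ}
    (g : Matrix (Fin r) (Fin N) (MvPolynomial P.V k₀)) [Algebra (MvPolynomial (Fin N) k₀) k] :
    Prop where
  form : ∀ j, ∃ b, ∀ p, IsForm (g j p) b
  pts : ∀ x, x ∈ Z.pts ↔ x ∈ Y.pts ∧ ∀ j, ev x (eqn k g j) = 0
  dim : Z.dim + r = Y.dim
  base : ∃ E : Set (MvPolynomial P.V k₀), (∀ e ∈ E, ∃ b, IsForm e b) ∧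
    ∀ x, x ∈ Y.pts ↔ ∀ e ∈ E, ev x (MvPolynomial.map (bs k (Fin N) k₀) e) = 0
  sep : ∀ T : Sub k (P.sum P), (∀ z ∈ T, fst z ∈ Z.pts ∧ snd z ∈ Z.pts ∧ ¬ LinearIndependent k
    (Sum.elim (fun j p => ev (fst z) (MvPolynomial.map (bs k (Fin N) k₀) (g j p)))
      fun j p => ev (snd z) (MvPolynomial.map (bs k (Fin N) k₀) (g j p)))) →
    Z.dim ≤ sdim T → sdim T = Z.dim ∧ ((∀ z ∈ T, fst z = snd z) ∨
      ∃ V V' : Sub k P, ∀ z, z ∈ T ↔ fst z ∈ V ∧ snd z ∈ V')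

variable {Y Z : SV k P}

theorem VGin.dat [IsAlgClosed k] (h : VGin Y Z) :
    ∃ (k₀ : Subfield k) (r N : ℕ) (g : Matrix (Fin r) (Fin N) (MvPolynomial P.V k₀))
      (_ : Algebra (MvPolynomial (Fin N) k₀) k)
      (_ : FaithfulSMul (MvPolynomial (Fin N) k₀) k)
      (_ : Algebra.IsAlgebraic (MvPolynomial (Fin N) k₀) k), Dat' Y Z k₀ g := by
  obtain ⟨F, E, r, N, g, c, h1, h2, h3, h4, h5, h6, h7⟩ := h
  obtain ⟨k₀, e0, e1, e2⟩ := exists_base' F h4
  let A : Algebra (MvPolynomial (Fin N) k₀) k :=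
    (aeval c : MvPolynomial (Fin N) k₀ →ₐ[k₀] k).toRingHom.toAlgebra
  have e : (bs k (Fin N) k₀).comp (Subfield.inclusion e0) = F.subtype :=
    RingHom.ext fun c => aeval_C _ _
  have e3 : ∀ p, algebraMap (MvPolynomial (Fin N) k₀) k (X p) = c p := fun p => aeval_X _ p
  refine ⟨k₀, r, N, Matrix.of fun j p => MvPolynomial.map (Subfield.inclusion e0) (g j p), A,
    (faithfulSMul_iff_algebraMap_injective _ _).2 e1, ⟨fun c => ?_⟩,
    fun j => (h3 j).imp fun _ hb p => form_map _ (hb p), fun x => ?_, h6,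
    ⟨MvPolynomial.map (Subfield.inclusion e0) '' E, ?_, fun x => ?_⟩, fun T t1 t2 => ?_⟩
  · obtain ⟨Q, q1, q2⟩ := e2 c
    exact ⟨Q, q1, q2⟩
  · simp only [h5, Set.mem_sep_iff, eqn, e3, Matrix.of_apply, map_map, e, evF, ev_eq, map_sum,
      map_mul, eval_C]
  · rintro _ ⟨g, hg, rfl⟩
    exact (h1 g hg).imp fun _ => form_map _
  · simp only [h2, Set.forall_mem_image, map_map, e, Set.mem_ofPred_eq, evF]
  · simp only [Matrix.of_apply, map_map, e] at t1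
    have := h7 T t1 (by rwa [height_eq, Nat.cast_le])
    rwa [height_eq, Nat.cast_inj] at this

variable {r N : ℕ} {k₀ : Type u} [Field k₀] {g : Matrix (Fin r) (Fin N) (MvPolynomial P.V k₀)}
  [Algebra (MvPolynomial (Fin N) k₀) k] (h : Dat' Y Z k₀ g)
include h

theorem Dat'.sub : Z.pts ⊆ Y.pts := fun x hx => ((h.pts x).1 hx).1

theorem Dat'.stabY (σ : k ≃ₐ[MvPolynomial (Fin N) k₀] k) : Stab σ.toRingEquiv Y.pts := by
  obtain ⟨E, e1, e2⟩ := h.base
  intro x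
  rw [e2, e2]
  refine forall₂_congr fun g hg => ?_
  obtain ⟨b, hb⟩ := e1 g hg
  rw [← ev_pt σ.toRingEquiv x (form_map _ hb), mp, map_map]
  exact Eq.congr_left (congrArg (fun κ => ev _ (MvPolynomial.map κ g))
    (RingHom.ext fun c => (σ.commutes (C c)).symm))

theorem Dat'.stab (σ : k ≃ₐ[MvPolynomial (Fin N) k₀] k) : Stab σ.toRingEquiv Z.pts := by
  intro x
  choose b hb using h.form
  rw [h.pts, h.pts, h.stabY σ x]
  refine and_congr_right' (stab_zero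
    (fun j => ⟨_, eqn_form (fun j p => form_map _ (hb j p)) j⟩) (fun j => ?_) x)
  rw [← map_eqB, mp, map_map]
  exact congrArg (fun κ => MvPolynomial.map κ (eqB g j)) (RingHom.ext fun c => σ.commutes c)

variable [IsAlgClosed k] [FaithfulSMul (MvPolynomial (Fin N) k₀) k]
  [Algebra.IsAlgebraic (MvPolynomial (Fin N) k₀) k]

theorem Dat'.fr {L : Submodule ℚ (Cyc k (P.sum P))} (hR : Rt (Z.prod Z).pts ≤ L)
    (hG : ∀ (σ : k ≃ₐ[MvPolynomial (Fin N) k₀] k) (T : Sub k (P.sum P)),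
      (T : Set ((P.sum P).Pt k)) ⊆ (Z.prod Z).pts → cS (sg σ.toRingEquiv T) - cS T ∈ L)
    (hD : cS (dsub Z) ∈ L)
    (hP : ∀ V V' : Sub k P, (V : Set (P.Pt k)) ⊆ Z.pts → (V' : Set (P.Pt k)) ⊆ Z.pts →
      cS (bij_sum.xp V V') ∈ L)
    (hV : ∀ β ∈ CR.gr (Y.prod Y) Z.dim, ∀ c,
      CR.val _ (rs h.sub β) = (Rt (Z.prod Z).pts).mkQ c → c ∈ L)
    {T : Sub k (P.sum P)} (hT : (T : Set ((P.sum P).Pt k)) ⊆ (Z.prod Z).pts)
    (hd : sdim T = Z.dim) : cS T ∈ L := by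
  choose b hb using h.form
  let Λ : Matrix (Fin r ⊕ Fin r) (Fin N) (MvPolynomial (P.sum P).V k₀) :=
    Sum.elim (fun j p => rename (Crd.inl k P P).ε (g j p)) fun j p =>
      rename (Crd.inr k P P).ε (g j p)
  have he : ∀ (β : Crd k P (P.sum P)) (j j'), (∀ p, Λ j' p = rename β.ε (g j p)) →
      eqn k Λ j' = rename β.ε (eqn k g j) := fun β j j' e => by
    simp only [eqn, e, map_sum, map_mul, rename_C, map_rename]
  have bad : ∀ T : Sub k (P.sum P), (T : Set ((P.sum P).Pt k)) ⊆ (Z.prod Z).pts →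
      (¬ ∃ z ∈ T, Ind k₀ Λ z) → Z.dim ≤ sdim T → sdim T = Z.dim ∧ cS T ∈ L := by
    intro T hT hb hd
    have e : ∀ z : (P.sum P).Pt k, (fun j p => ev z (MvPolynomial.map (bs k (Fin N) k₀) (Λ j p))) =
        Sum.elim (fun j p => ev (fst z) (MvPolynomial.map (bs k (Fin N) k₀) (g j p)))
          fun j p => ev (snd z) (MvPolynomial.map (bs k (Fin N) k₀) (g j p)) := fun z => by
      funext j p
      rcases j with j | j
      · exact (congrArg (ev z) (map_rename _ _ _)).trans ((Crd.inl k P P).ev_rename _ _)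
      · exact (congrArg (ev z) (map_rename _ _ _)).trans ((Crd.inr k P P).ev_rename _ _)
    obtain ⟨s1, s2⟩ := h.sep T (fun z hz => ⟨(mem_prod.1 (hT hz)).1, (mem_prod.1 (hT hz)).2,
      fun hi => hb ⟨z, hz, by rwa [Ind, e]⟩⟩) hd
    refine ⟨s1, ?_⟩
    obtain s2 | ⟨V, V', s2⟩ := s2
    · rwa [eq_of_sdim_le (U := T) (Z := dsub Z)
        (fun z hz => mem_dsub.2 ⟨(mem_prod.1 (hT hz)).2, s2 z hz⟩) (by rw [sdim_dsub, s1])]
    · obtain ⟨x, hx⟩ := V.isIrreducible.nonempty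
      obtain ⟨x', hx'⟩ := V'.isIrreducible.nonempty
      rw [show T = bij_sum.xp V V' from SetLike.ext fun z => (s2 z).trans bij_sum.mem_xp.symm]
      refine hP V V' (fun y hy => ?_) fun y hy => ?_
      · obtain ⟨z, rfl, rfl⟩ := (bij_sum (k := k)).exists_pt y x'
        exact (mem_prod.1 (hT ((s2 z).2 ⟨hy, hx'⟩))).1
      · obtain ⟨z, rfl, rfl⟩ := (bij_sum (k := k)).exists_pt x y
        exact (mem_prod.1 (hT ((s2 z).2 ⟨hx, hy⟩))).2
  refine LK' (Λ := Λ) (e := Sum.elim (fun j => (b j).mapDomain (Crd.inl k P P).ψ)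
    fun j => (b j).mapDomain (Crd.inr k P P).ψ) (Y := (Y.prod Y).pts)
    (fun j p => ?_) (fun U T hU hk z hz => ?_) (fun z => ?_) hR (fun σ T hT _ => hG σ T hT)
    (fun T hT hd hb => (bad T hT hb hd.ge).2) (fun U V hU hd _ hY hv hc => ?_) hT hd
  · have key : ∀ (β : Crd k P (P.sum P)) (j), IsForm (MvPolynomial.map (bs k (Fin N) k₀)
        (rename β.ε (g j p))) ((b j).mapDomain β.ψ) := fun β j => by
      rw [map_rename]
      exact β.form (form_map _ (hb j p))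
    rcases j with j | j
    exacts [key (Crd.inl k P P) j, key (Crd.inr k P P) j]
  · obtain ⟨E, e1, e2⟩ := h.base
    have key : ∀ (β : Crd k P (P.sum P)) (β₀ : Crd k₀ P (P.sum P)), β₀.ε = β.ε →
        (∀ z ∈ U, β.pr z ∈ Y.pts) → β.pr z ∈ Y.pts := fun β β₀ e hβ => (e2 _).2 fun g hg => by
      obtain ⟨b, hb⟩ := e1 g hg
      have := (hk (a := rename β₀.ε g) ⟨⟨_, β₀.form hb⟩, fun y hy => by
        rw [map_rename, e, Crd.ev_rename]
        exact (e2 _).1 (hβ y hy) g hg⟩).2 z hz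
      rwa [map_rename, e, Crd.ev_rename] at this
    exact mem_prod.2 ⟨key _ (Crd.inl k₀ P P) rfl fun z hz => (mem_prod.1 (hU hz)).1,
      key _ (Crd.inr k₀ P P) rfl fun z hz => (mem_prod.1 (hU hz)).2⟩
  · simp only [Sum.forall, fun j => he (Crd.inl k P P) j (Sum.inl j) fun _ => rfl,
      fun j => he (Crd.inr k P P) j (Sum.inr j) fun _ => rfl, Crd.ev_rename]
    rw [mem_prod, mem_prod, h.pts, h.pts, and_and_and_comm]
  · have h1 := h.dim
    rw [Fintype.card_sum, Fintype.card_fin] at hv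
    have h2 : sdim V + Z.dim = Y.dim + Y.dim := by omega
    obtain ⟨c, c1, c2, c3, c4⟩ := val_rs h.sub hY h2 fun T t1 t2 => by
      by_cases hb : ∃ z ∈ T, Ind k₀ Λ z
      · obtain ⟨σ, hσ⟩ := hc T t1 t2 hb
        exact (sdim_mono hσ).trans (by rw [sdim_sg, hd])
      · exact (le_total _ _).elim id fun e => (bad T t2 hb e).1.le
    refine pos_mem L c1 c2 (c3 U ‹_› hU hd)
      (hV _ (cyc_mem _ hY (by rw [prod_dim, h2])) c c4) fun T ⟨t1, t2, t3⟩ => ?_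
    by_cases hb : ∃ z ∈ T, Ind k₀ Λ z
    · obtain ⟨σ, hσ⟩ := hc T t1 t2 hb
      rw [eq_of_sdim_le hσ (by rw [sdim_sg, hd, t3])]
      exact Or.inr (hG σ U hU)
    · exact Or.inl (bad T t2 hb t3.ge).2

end Pool.Agent.Work.MP_10f4af_ag
end
end

-- merged part: Pool.Agent.Work.MP_10f4af_ag.MC.N
section
/-!
# No phantom projector on a very general member of a linear system on `Y`
-/

open MvPolynomial Function

namespace Pool.Agent.Work.MP_10f4af_ag

open MP_ffcd14_ag hiding len vl cyc pl Weil idl_hmg mem_idl idl_prime idl_le_iff lin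

universe u v w

theorem morita {A B ι : Type*} [Ring A] [Ring B] [Fintype ι] (ρ : B →+ A) (j : A →+ B)
    (h1 : ∀ β c β', ρ (β * j c * β') = ρ β * c * ρ β')
    (h2 : ∀ c β c', j (c * ρ β * c') = j c * β * j c') (N : NonUnitalSubring B)
    (hN : ∀ x ∈ N, IsNilpotent x) {p : A} (hp : p * p = p) {a b : ι → A} {β : ι → B}
    (e : p = ∑ i, a i * ρ (β i) * b i) (hq : ∀ i l, β i * j (b i * p * a l) ∈ N) : p = 0 := by
  have key : ∀ l i, β i * j (b i * p * a l) = 0 := fun l =>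
    nak N hN (fun i => β i * j (b i * p * a l)) Finset.univ _ hq fun i => by
      have e1 : ∀ m, β i * j (b i * p * a m) * (β m * j (b m * p * a l)) =
          β i * j (b i * p * (a m * ρ (β m) * b m) * (p * a l)) := fun m => by
        rw [mul_assoc, ← mul_assoc (j _), ← h2]
        simp only [mul_assoc]
      simp only [e1, ← Finset.mul_sum, ← map_sum, ← Finset.sum_mul, ← e]
      rw [mul_assoc (b i) p p, hp, ← mul_assoc _ p, mul_assoc (b i) p p, hp]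
  have e2 : p * p * p = ∑ i, ∑ l, a i * ρ (β i * j (b i * p * a l) * β l) * b l := by
    have e3 : p * p * p = (∑ i, a i * ρ (β i) * b i) * p * ∑ i, a i * ρ (β i) * b i := by
      rw [← e]
    rw [e3]
    simp only [h1]
    simp only [Finset.sum_mul, Finset.mul_sum, mul_assoc]
    exact Finset.sum_comm
  simpa only [hp, key, zero_mul, map_zero, mul_zero, Finset.sum_const_zero] using e2

variable {k : Type u} [Field k] [IsAlgClosed k] {P : Amb} {Y Z : SV k P}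

/-- Restriction of correspondences. -/
noncomputable def rsC (h : Z.pts ⊆ Y.pts) : Cor (Mod.one Y) →ₗ[ℚ] Cor (Mod.one Z) :=
  (un1 Z).symm.toLinearMap ∘ₗ rs h ∘ₗ (un1 Y).toLinearMap

/-- Direct image of correspondences. -/
noncomputable def jmC (h : Z.pts ⊆ Y.pts) : Cor (Mod.one Z) →ₗ[ℚ] Cor (Mod.one Y) :=
  (un1 Y).symm.toLinearMap ∘ₗ cp Z (gph subset_rfl h) ∘ₗ (cp Z).flip (gph h subset_rfl) ∘ₗ
    (un1 Z).toLinearMap

theorem un_rsC (h : Z.pts ⊆ Y.pts) (β : Cor (Mod.one Y)) : un1 Z (rsC h β) =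
    cp Z (gph h subset_rfl) (cp Z (un1 Y β) (gph subset_rfl h)) := (un1 Z).apply_symm_apply _

theorem un_jmC (h : Z.pts ⊆ Y.pts) (c : Cor (Mod.one Z)) : un1 Y (jmC h c) =
    cp Z (gph subset_rfl h) (cp Z (un1 Z c) (gph h subset_rfl)) := (un1 Y).apply_symm_apply _

theorem rsC_mul (h : Z.pts ⊆ Y.pts) (β β' : Cor (Mod.one Y)) (c : Cor (Mod.one Z)) :
    rsC h (β * jmC h c * β') = rsC h β * c * rsC h β' :=
  (un1 Z).injective (by simp only [un1_mul Z, un_rsC, un_jmC, cp_assoc])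

theorem jmC_mul (h : Z.pts ⊆ Y.pts) (c c' : Cor (Mod.one Z)) (β : Cor (Mod.one Y)) :
    jmC h (c * rsC h β * c') = jmC h c * β * jmC h c' :=
  (un1 Y).injective (by simp only [un1_mul Z, un_rsC, un_jmC, cp_assoc])

/-- The restrictions of the classes of codimension `dim Z`. -/
noncomputable def QR (h : Z.pts ⊆ Y.pts) : Submodule ℚ (Cor (Mod.one Z)) :=
  ((CR.gr (Y.prod Y) Z.dim).comap (un1 Y).toLinearMap).map (rsC h)

theorem QR_le (h : Z.pts ⊆ Y.pts) {x : Cor (Mod.one Z)} (hx : x ∈ QR h) :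
    x ∈ Cor.R0 (Mod.one Z) := by
  obtain ⟨β, hβ, rfl⟩ := hx
  rw [un1_gr, un_rsC]
  exact cp_gr Z (i := Y.dim) (j := Z.dim) (l := Z.dim) rfl (gph_gr h subset_rfl (add_comm _ _))
    (cp_gr Z (i := Z.dim) (j := Y.dim) (l := Z.dim) (add_comm _ _) hβ (gph_gr subset_rfl h rfl))

section

variable {r N : ℕ} {k₀ : Type u} [Field k₀] {g : Matrix (Fin r) (Fin N) (MvPolynomial P.V k₀)}
  [Algebra (MvPolynomial (Fin N) k₀) k] (h : Dat' Y Z k₀ g)

/-- The action of the Galois group on the correspondences. -/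
noncomputable def Dat'.act (σ : k ≃ₐ[MvPolynomial (Fin N) k₀] k) :
    Cor (Mod.one Z) →ₐ[ℚ] Cor (Mod.one Z) := Cor.gal (Mod.one Z) (h.stab σ)

theorem Dat'.un_act (σ : k ≃ₐ[MvPolynomial (Fin N) k₀] k) (x : Cor (Mod.one Z)) :
    un1 Z (h.act σ x) = CR.gal (stab_prod (h.stab σ) (h.stab σ)) (un1 Z x) := rfl

theorem Dat'.act_one (x : Cor (Mod.one Z)) : h.act 1 x = x :=
  (un1 Z).injective (CR.gal_refl (stab_prod (h.stab 1) (h.stab 1)) (un1 Z x))

theorem Dat'.act_mul (σ τ : k ≃ₐ[MvPolynomial (Fin N) k₀] k) (x : Cor (Mod.one Z)) :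
    h.act (σ * τ) x = h.act σ (h.act τ x) :=
  (un1 Z).injective (CR.gal_gal (stab_prod (h.stab σ) (h.stab σ)) (stab_prod (h.stab τ) (h.stab τ))
    (stab_prod (h.stab (σ * τ)) (h.stab (σ * τ))) (un1 Z x)).symm

theorem Dat'.act_R0 (σ : k ≃ₐ[MvPolynomial (Fin N) k₀] k) {x : Cor (Mod.one Z)}
    (hx : x ∈ Cor.R0 (Mod.one Z)) : h.act σ x ∈ Cor.R0 (Mod.one Z) :=
  CR.gal_gr ((h.stab σ).mod ((Mod.one Z).prod (Mod.one Z))) hx

theorem Dat'.act_NJ (σ : k ≃ₐ[MvPolynomial (Fin N) k₀] k) {x : Cor (Mod.one Z)}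
    (hx : x ∈ Cor.NJ (Mod.one Z)) : h.act σ x ∈ Cor.NJ (Mod.one Z) := by
  refine ⟨h.act_R0 σ hx.1, fun β hβ => ?_⟩
  obtain ⟨β, rfl⟩ := (Cor.un _).surjective β
  have e : h.act σ (h.act σ⁻¹ β) = β := by rw [← h.act_mul, mul_inv_cancel, h.act_one]
  rw [← e, Dat'.act, Cor.un_gal, Cor.un_gal, ← map_mul, Mod.dgL_apply, dgr_gal _ (h.stab σ)]
  exact hx.2 _ (h.act_R0 σ⁻¹ hβ)

theorem Dat'.act_QR (σ : k ≃ₐ[MvPolynomial (Fin N) k₀] k) {x : Cor (Mod.one Z)}
    (hx : x ∈ QR h.sub) : h.act σ x ∈ QR h.sub := by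
  obtain ⟨β, hβ, rfl⟩ := hx
  refine ⟨(un1 Y).symm (CR.gal (stab_prod (h.stabY σ) (h.stabY σ)) (un1 Y β)),
    CR.gal_gr _ hβ, (un1 Z).injective ?_⟩
  rw [h.un_act, un_rsC, un_rsC, gal_cp Z (h.stab σ) (h.stabY σ) (h.stab σ),
    gal_cp Z (h.stab σ) (h.stabY σ) (h.stabY σ), gal_gph _ _ (h.stab σ), gal_gph _ _ (h.stab σ),
    LinearEquiv.apply_symm_apply]

theorem Dat'.act_DD (σ : k ≃ₐ[MvPolynomial (Fin N) k₀] k) {x : Cor (Mod.one Z)}
    (hx : x ∈ Cor.DD (Mod.one Z)) : h.act σ x ∈ Cor.DD (Mod.one Z) := by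
  refine (Submodule.span_le (p := (Cor.DD _).comap (h.act σ).toLinearMap)).2 ?_ hx
  rintro _ ⟨b, a, rfl⟩
  exact Submodule.subset_span ⟨_, _, Cor.gal_xx _ (h.stab σ) b a⟩

variable [FaithfulSMul (MvPolynomial (Fin N) k₀) k]
  [Algebra.IsAlgebraic (MvPolynomial (Fin N) k₀) k]

theorem Dat'.act_fin (x : Cor (Mod.one Z)) : (Set.range fun σ => h.act σ x).Finite :=
  orbit_CR (fun σ => (h.stab σ).mod ((Mod.one Z).prod (Mod.one Z)))
    (fun I => orbit_ideal I) (Cor.un _ x)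

theorem Dat'.inv {t : Cor (Mod.one Z)} (ht : t ∈ Cor.R0 (Mod.one Z)) (hi : ∀ σ, h.act σ t = t) :
    t ∈ (QR h.sub ⊔ Cor.DD (Mod.one Z)) ⊔ Submodule.span ℚ {1} := by
  refine inv_mem (fun σ => (h.act σ).toLinearMap) h.act_one h.act_mul h.act_fin _
    (fun σ x hx => ?_) hi ?_
  · obtain ⟨_, hδ, _, hy, rfl⟩ := Submodule.mem_sup.1 hx
    obtain ⟨δ, h1, δ', h2, rfl⟩ := Submodule.mem_sup.1 hδ
    obtain ⟨c, rfl⟩ := Submodule.mem_span_singleton.1 hy
    rw [AlgHom.toLinearMap_apply, map_add, map_add, map_smul, map_one]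
    exact Submodule.add_mem_sup (Submodule.add_mem_sup (h.act_QR σ h1) (h.act_DD σ h2)) hy
  generalize hQ' : ((QR h.sub ⊔ Cor.DD (Mod.one Z)) ⊔ Submodule.span ℚ {1}) ⊔
    Submodule.span ℚ _ = Q'
  have k1 : (QR h.sub ⊔ Cor.DD (Mod.one Z)) ⊔ Submodule.span ℚ {1} ≤ Q' := hQ' ▸ le_sup_left
  have k2 : ∀ σ m, h.act σ m - m ∈ Q' := fun σ m =>
    hQ' ▸ Submodule.mem_sup_right (Submodule.subset_span ⟨σ, m, rfl⟩)
  obtain ⟨c, hc, e⟩ := (mem_CH _).1 ((Cor.mem_R0' _).1 ht)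
  obtain ⟨s, hs, e'⟩ : (Rt (Z.prod Z).pts).mkQ c ∈ Q'.map (Cor.vv (Mod.one Z)) := by
    refine Sp_map _ _ (fun T hT => ?_) hc
    refine h.fr (L := (Q'.map (Cor.vv (Mod.one Z))).comap (Rt (Z.prod Z).pts).mkQ)
      (fun c hc => ?_) (fun σ T hT => ?_) ?_ (fun V V' hV hV' => ?_) (fun β hβ c hc => ?_) hT.1 ?_
    · exact ⟨0, zero_mem _, (map_zero _).trans ((Submodule.Quotient.mk_eq_zero _).2 hc).symm⟩
    · obtain ⟨m, hm⟩ := G2_mk hT
      refine ⟨_, k2 σ m, ?_⟩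
      have e : Cor.vv (Mod.one Z) (h.act σ m) =
          tC ((h.stab σ).mod ((Mod.one Z).prod (Mod.one Z))) (Cor.vv (Mod.one Z) m) := rfl
      rw [map_sub, map_sub, e, hm, ← tw_cS]
      rfl
    · refine ⟨1, k1 (Submodule.mem_sup_right (Submodule.mem_span_singleton_self _)),
        (Cor.vv_one _).trans (congrArg (cyc (Z.prod Z)) (Set.ext fun z => ?_))⟩
      have e0 : fst z ∈ Z.pts ∧ fst z = snd z ↔ snd z ∈ Z.pts ∧ fst z = snd z :=
        and_congr_left fun h => by rw [h]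
      exact e0.trans mem_dsub.symm
    · obtain ⟨m, hm⟩ := G2_mk (Z := Z) (T := bij_sum.xp V V') fun z hz =>
        mem_prod.2 ⟨hV (bij_sum.mem_xp.1 hz).1, hV' (bij_sum.mem_xp.1 hz).2⟩
      refine ⟨m, k1 (Submodule.mem_sup_left (Submodule.mem_sup_right
        (dec_iff.1 (Submodule.subset_span ⟨V, V', hV, hV', hm.trans ?_⟩)))), hm⟩
      exact congrArg (cyc (Z.prod Z)) (Set.ext fun z => bij_sum.mem_xp)
    · exact ⟨rsC h.sub ((un1 Y).symm β),
        k1 (Submodule.mem_sup_left (Submodule.mem_sup_left ⟨_, hβ, rfl⟩)), hc⟩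
    · exact Nat.add_right_cancel (hT.2.trans (prod_dim Z Z))
  rwa [← Cor.vv_inj _ (e'.trans e)]

end

variable {K : Type v} [Field K] [CharZero K] {W : Weil.{u, v, w} k K}

omit [CharZero K] in
theorem cl_of_rho {γ : Cor (Mod.one Z)} (h : W.rho (Mod.one Z) γ = 0) :
    W.clR _ (un1 Z γ) = 0 := by
  have e2 : W.trL ((Mod.one Z).prod (Mod.one Z)).Z ∘ₗ
      LinearMap.mulLeft K (W.clR _ (Cor.un (Mod.one Z) γ)) = 0 := by
    refine LinearMap.ext_on (W.span_t2 (Mod.one Z)) ?_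
    rintro _ ⟨x, y, rfl⟩
    rw [LinearMap.comp_apply, LinearMap.mulLeft_apply, ← mul_assoc, ← W.W2_tr_dn, ← W.rho_apply, h,
      LinearMap.zero_apply, zero_mul, map_zero, LinearMap.zero_apply]
  have e3 : W.clR _ (Cor.un (Mod.one Z) γ) = 0 := Weil.pd_l fun _ y _ => LinearMap.congr_fun e2 y
  exact e3

omit [CharZero K] in
theorem rho_of_cl {γ : Cor (Mod.one Z)} (h : W.clR _ (un1 Z γ) = 0) :
    W.rho (Mod.one Z) γ = 0 := by
  have e3 : W.clR _ (Cor.un (Mod.one Z) γ) = 0 := h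
  refine LinearMap.ext fun x => ?_
  rw [W.rho_apply, e3, zero_mul, map_zero, LinearMap.zero_apply]

theorem trace_NJ {T : Type} {M : Mod Z T} (al : ∀ i ≠ M.Z.dim, ∀ x ∈ W.gr M.Z i, x ∈ W.Alg M.Z)
    {α : Cor M} (hα : α ∈ Cor.NJ M) : LinearMap.trace K _ (W.rho M α) = 0 := by
  obtain ⟨S, hS⟩ := exists_par W M.Z
  have h1 := trace_op W M hS (W.clR _ (Cor.un M α))
  have h2 : S ∘ₗ W.dnL M (M.prod M) Embedding.inr ∘ₗ LinearMap.mulLeft K (W.clR _ (Cor.un M α)) ∘ₗ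
      (W.upA M (M.prod M) Embedding.inl).toLinearMap = (-1 : K) ^ M.Z.dim • W.rho M α :=
    LinearMap.ext fun x => hS _ _ (rho_NJ al hα x)
  have h0 : (M.prod M).dgr (Cor.un M α * M.dl) = 0 := hα.2 _ M.dl_gr
  rw [h2, ← RingHom.map_mul, mul_comm M.dl, ← W.cast_dgr, h0, map_smul, Rat.cast_zero,
    smul_eq_zero] at h1
  exact h1.resolve_left (pow_ne_zero _ (neg_ne_zero.2 one_ne_zero))

theorem DD_alg {T : Type} {M : Mod Z T} {y : Cor M} (hy : y ∈ Cor.DD M) (x : W.H M.Z) :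
    W.rho M y x ∈ W.Alg M.Z := by
  induction hy using Submodule.span_induction with
  | zero => exact map_zero (W.rho M) ▸ zero_mem _
  | add y y' _ _ h h' => exact map_add (W.rho M) y y' ▸ add_mem h h'
  | smul c y _ h => exact W.rho_smul M c y ▸ Submodule.smul_mem _ _ h
  | mem y hy =>
    obtain ⟨b, a, rfl⟩ := hy
    exact W.rho_xx M b a x ▸ Submodule.smul_mem _ _ (clR_alg W a)

theorem na_res (h : Z.pts ⊆ Y.pts) (al : ∀ i ≠ Z.dim, ∀ x ∈ W.gr Z i, x ∈ W.Alg Z)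
    (hr : ∃ x, ∀ y, x - W.res Y Z y ∉ W.Alg Z) {δ : Cor (Mod.one Z)}
    (hδ : δ ∈ QR h ⊔ Cor.DD (Mod.one Z)) : 1 - δ ∉ Cor.NJ (Mod.one Z) := by
  intro hj
  have h1 : ∀ m, (1 - δ) ^ (m + 1) ∈ Cor.NJ (Mod.one Z) := fun m =>
    pow_succ' (1 - δ) m ▸ NJ_mul hj (pow_mem hj.1 m)
  have h2 := surj_of_trace (W.rho (Mod.one Z) (1 - δ)) fun m => by
    rw [← map_pow]
    exact trace_NJ (M := Mod.one Z) al (h1 m)
  rw [map_sub, map_one, sub_sub_cancel] at h2
  obtain ⟨_, ⟨β, -, rfl⟩, δ', hδ', rfl⟩ := Submodule.mem_sup.1 hδ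
  obtain ⟨x, hx⟩ := hr
  obtain ⟨y, rfl⟩ := h2 x
  have e := hac_rho (A := Z) Z W (rsC h β) y
  rw [un_rsC, hac_cp, hac_res] at e
  have := DD_alg (W := W) hδ' y
  rw [← add_sub_cancel_left (rsC h β) δ', map_sub, LinearMap.sub_apply, e] at this
  exact hx _ this

variable (W Y) in
/-- The homologically trivial correspondences of degree zero. -/
def NH : NonUnitalSubring (Cor (Mod.one Y)) where
  carrier := {γ | γ ∈ Cor.R0 (Mod.one Y) ∧ W.rho (Mod.one Y) γ = 0}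
  add_mem' h h' := ⟨add_mem h.1 h'.1, by rw [RingHom.map_add, h.2, h'.2, add_zero]⟩
  zero_mem' := ⟨zero_mem _, RingHom.map_zero _⟩
  mul_mem' h h' := ⟨mul_mem h.1 h'.1, by rw [RingHom.map_mul, h.2, zero_mul]⟩
  neg_mem' h := ⟨neg_mem h.1, by rw [RingHom.map_neg, h.2, neg_zero]⟩

theorem Dat'.hp {r N : ℕ} {k₀ : Type u} [Field k₀]
    {g : Matrix (Fin r) (Fin N) (MvPolynomial P.V k₀)} [Algebra (MvPolynomial (Fin N) k₀) k]
    [FaithfulSMul (MvPolynomial (Fin N) k₀) k]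
    [Algebra.IsAlgebraic (MvPolynomial (Fin N) k₀) k] (h : Dat' Y Z k₀ g)
    (hN : ∀ γ ∈ Cor.R0 (Mod.one Y), W.rho (Mod.one Y) γ = 0 → IsNilpotent γ)
    (al : ∀ i ≠ Z.dim, ∀ x ∈ W.gr Z i, x ∈ W.Alg Z)
    (hr : ∃ x, ∀ y, x - W.res Y Z y ∉ W.Alg Z) :
    ∀ p ∈ Cor.R0 (Mod.one Z), p * p = p → W.rho (Mod.one Z) p = 0 → p = 0 := by
  intro p hp hpp h0
  let R := Cor.R0 (Mod.one Z)
  let ρ : (k ≃ₐ[MvPolynomial (Fin N) k₀] k) → R →ₐ[ℚ] R := fun σ =>
    ((h.act σ).comp R.val).codRestrict R fun x => h.act_R0 σ x.2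
  obtain ⟨n, hn, hD⟩ := BI_ring ρ (fun x => Subtype.ext (h.act_one x))
    (fun σ τ x => Subtype.ext (h.act_mul σ τ x)) ((Cor.NJ _).comap R.val.toLinearMap)
    (Submodule.span ℚ {x | ∃ a b y : R, y.1 ∈ QR h.sub ⊔ Cor.DD (Mod.one Z) ∧ x = a * y * b})
    (fun x hx y _ => NJ_mul hx y.2) (fun σ _ hx => h.act_NJ σ hx) (fun a b y hy => by
      induction hy using Submodule.span_induction with
      | mem y hy =>
        obtain ⟨a', b', y, hy, rfl⟩ := hy
        exact Submodule.subset_span ⟨a * a', b' * b, y, hy, by simp only [mul_assoc]⟩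
      | zero => rw [mul_zero, zero_mul]; exact zero_mem _
      | add y z _ _ h h' => rw [mul_add, add_mul]; exact add_mem h h'
      | smul q y _ h => rw [mul_smul_comm, smul_mul_assoc]; exact Submodule.smul_mem _ q h)
    (fun t ht hi => by
      refine Submodule.subset_span ⟨1, 1, t, ?_, by rw [one_mul, mul_one]⟩
      obtain ⟨δ, hδ, _, hy, e⟩ := Submodule.mem_sup.1
        (h.inv t.2 fun σ => congrArg Subtype.val (hi σ))
      obtain ⟨c, rfl⟩ := Submodule.mem_span_singleton.1 hy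
      by_cases hc : c = 0
      · rwa [← e, hc, zero_smul, add_zero]
      refine absurd ?_ (na_res h.sub al hr (Submodule.smul_mem _ (-c⁻¹) hδ))
      have : c⁻¹ • t.1 ∈ Cor.NJ (Mod.one Z) := Submodule.smul_mem _ c⁻¹ ht
      rwa [← e, smul_add, smul_smul, inv_mul_cancel₀ hc, one_smul, add_comm, ← sub_neg_eq_add,
        ← neg_smul] at this)
    (x := ⟨p, hp⟩) (hom_NJ hp h0)
    (Set.Finite.of_finite_image (f := Subtype.val) ((h.act_fin p).subset (by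
      rintro _ ⟨_, ⟨σ, rfl⟩, rfl⟩
      exact ⟨σ, rfl⟩)) Subtype.val_injective.injOn)
  rw [IsIdempotentElem.pow_eq (Subtype.ext hpp) hn.ne'] at hD
  obtain ⟨m, c, g, e⟩ := Submodule.mem_span_set'.1 hD
  choose a b y hy e' using fun i => (g i).2
  choose q hq u hu e1 using fun i => Submodule.mem_sup.1 (hy i)
  have hq' := fun i => QR_le h.sub (hq i)
  choose β hβ e2 using hq
  have e3 : p = ∑ i, (c i • a i).1 * q i * (b i).1 + ∑ i, (c i • a i).1 * u i * (b i).1 := by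
    rw [← Finset.sum_add_distrib]
    refine (congrArg Subtype.val e).symm.trans ((map_sum R.val _ _).trans
      (Finset.sum_congr rfl fun i _ => ?_))
    rw [e', ← smul_mul_assoc, ← smul_mul_assoc, map_mul, map_mul, ← add_mul, ← mul_add, e1]
    rfl
  have h1 : ∑ i, (c i • a i).1 * u i * (b i).1 ∈ Cor.DD (Mod.one Z) :=
    sum_mem fun i _ => DD_ideal _ _ (hu i)
  have h2 : ∑ i, (c i • a i).1 * q i * (b i).1 ∈ R :=
    sum_mem fun i _ => mul_mem (mul_mem (c i • a i).2 (hq' i)) (b i).2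
  generalize ∑ i, (c i • a i).1 * u i * (b i).1 = v at e3 h1
  have h3 := DJD h1 (hom_NJ hp h0) h1
  have h4 : v ∈ R := (eq_sub_of_add_eq' e3.symm).symm ▸ sub_mem hp h2
  have h5 : p + p * v * p ∈ R := add_mem hp (mul_mem (mul_mem hp h4) hp)
  have e4 : p = p * (p - v) * (p + p * v * p) := by
    rw [mul_sub, hpp, sub_mul, mul_add, mul_add, hpp, ← mul_assoc p, ← mul_assoc p, hpp,
      ← mul_assoc (p * v), ← mul_assoc (p * v), mul_assoc p v p, mul_assoc p _ v, h3, mul_zero,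
      zero_mul, add_zero, add_sub_cancel_right]
  generalize p + p * v * p = w at h5 e4
  have hd := h.dim
  refine morita (rsC h.sub).toAddMonoidHom (jmC h.sub).toAddMonoidHom
    (fun β c β' => rsC_mul h.sub β β' c) (fun c β c' => jmC_mul h.sub c c' β)
    (NH Y W) (fun x hx => hN x hx.1 hx.2) hpp
    (a := fun i => p * (c i • a i).1) (b := fun i => (b i).1 * w) (β := β) ?_ fun i l => ⟨?_, ?_⟩
  · rw [← eq_sub_of_add_eq e3.symm, Finset.mul_sum, Finset.sum_mul] at e4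
    refine e4.trans (Finset.sum_congr rfl fun i _ => ?_)
    rw [← e2 i]
    simp only [mul_assoc, LinearMap.toAddMonoidHom_coe]
  · refine un1_gr.2 ?_
    rw [un1_mul Z, LinearMap.toAddMonoidHom_coe, un_jmC]
    exact cp_gr Z (j := Y.dim + r) (by omega) (hβ i) (cp_gr Z (by omega) (gph_gr subset_rfl h.sub rfl)
      (cp_gr Z rfl (un1_gr.1 (mul_mem (mul_mem (mul_mem (b i).2 h5) hp) (mul_mem hp (c l • a l).2)))
        (gph_gr h.sub subset_rfl (add_comm _ _))))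
  · refine rho_of_cl ?_
    rw [un1_mul Z, LinearMap.toAddMonoidHom_coe, un_jmC]
    refine cl_cp_r Z W _ (cl_cp_r Z W _ (cl_cp_l Z W (cl_of_rho ?_) _))
    rw [RingHom.map_mul, RingHom.map_mul _ _ p, h0, mul_zero, zero_mul]

end Pool.Agent.Work.MP_10f4af_ag
end

-- merged part: Pool.Agent.Work.MP_10f4af_ag.MC.M
section
/-!
# Independence for a very general member of a linear system on `Y`
-/

open MvPolynomial Function

namespace Pool.Agent.Work.MP_10f4af_ag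

open MP_ffcd14_ag (Amb)

universe u v w

variable {k : Type u} [Field k] {P : Amb} [IsAlgClosed k] {K : Type v} [Field K]
  {W : Weil.{u, v, w} k K} {X Y : SV k P}

theorem nil_of_iter
    (hN : ∀ γ ∈ CH (Y.prod Y) Y.dim, (∀ y, W.act Y γ y = 0) → ∃ n, (comp Y γ)^[n] γ = 0)
    (γ : Cor (Mod.one Y)) (hγ : γ ∈ Cor.R0 (Mod.one Y)) (h0 : W.rho (Mod.one Y) γ = 0) :
    IsNilpotent γ := by
  have h1 : Cor.vv (Mod.one Y) γ ∈ CH (Y.prod Y) Y.dim := (Cor.mem_R0' (Mod.one Y)).1 hγ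
  have h2 : ∀ y : W.H Y, W.act Y (Cor.vv (Mod.one Y) γ) y = 0 := fun y =>
    (W.rho_act (Mod.one Y) γ y).symm.trans (LinearMap.congr_fun h0 y)
  obtain ⟨n, hn⟩ := hN _ h1 h2
  have h3 := H2_iter (Mod.one Y) γ n
  exact ⟨n + 1, Cor.vv_inj (Mod.one Y) ((h3.symm.trans hn).trans (map_zero _).symm)⟩

theorem VGin.main [CharZero K] (h : VGin Y X)
    (hN : ∀ γ ∈ CH (Y.prod Y) Y.dim, (∀ y, W.act Y γ y = 0) → ∃ n, (comp Y γ)^[n] γ = 0)
    (hA : ∀ j ≠ X.dim, ∀ x, W.dg X j x → x ∈ W.Alg X)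
    (hr : ∃ x, ∀ y, x - W.res Y X y ∉ W.Alg X) (i : ℕ) (t : Finset ℕ) :
    Indep W X (fun π => act X (∑ j : Fin (2 * X.dim + 1) with j.val ∈ t, π j) '' CH X i) ↔
      (0 < i → X.dim ∉ t → 2 * i ∈ t → Set.InjOn (W.cl X) (CH X i)) := by
  obtain ⟨k₀, r, N, g, _, _, _, hd⟩ := h.dat
  have al : ∀ i ≠ X.dim, ∀ x ∈ W.gr X i, x ∈ W.Alg X := fun i hi x hx =>
    hA i hi x (Weil.mem_gr.1 hx)
  exact img_one al (hd.hp (nil_of_iter hN) al hr) i t

end Pool.Agent.Work.MP_10f4af_ag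
end
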